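import Pool.Agent.Lib.H36O.TR
import Pool.Agent.Lib.H98M.M0

/-!
# H36O, file AO: orders without separated crossings

`OC cross`: `cross` is the crossing relation of a simple drawing, the vertices are linearly ordered, and edges `ij`,
`kl` with `i < j < k < l` do not cross. Every nonempty exchange closed set `D` of pairs `i < j` has an acyclic complex
of plane subsets: if `k` is the smallest head of `D` and `F` is a plane subset of `D` without edges of head `k`, some
`(i, k)` of `D` crosses nothing of `F` (`star_free`).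
-/

set_option autoImplicit false
set_option linter.unusedSectionVars false

namespace H36O

open Finset H98P H63F H98M

variable {V : Type*} [Fintype V] [LinearOrder V]

/-- crossing relation of a simple drawing with an order without separated crossings -/
structure OC (cross : Sym2 V → Sym2 V → Prop) : Prop where
  symm : ∀ e f, cross e f → cross f e
  adj : ∀ a b c, ¬ cross s(a, b) s(a, c)
  one : ∀ a b c d, cross s(a, b) s(c, d) → ¬ cross s(a, c) s(b, d)
  sep : ∀ w w' z z' : V, cross s(w, w') s(z, z') → ∃ h : V → ZMod 2, ∀ y y', y ≠ y' →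
    y ≠ w → y ≠ z → y' ≠ w → y' ≠ z → ¬ cross s(y, y') s(w, w') → ¬ cross s(y, y') s(z, z') →
    cr cross s(y, y') s(w, z) = h y + h y'
  ord : ∀ i j k l, i < j → j < k → k < l → ¬ cross s(i, j) s(k, l)

variable {cross : Sym2 V → Sym2 V → Prop}

/-- separated edges do not cross, ends in any order -/
theorem OC.far (h : OC cross) {a b c d : V} (hab : a ≠ b) (hcd : c ≠ d) (h1 : a < c) (h2 : a < d) (h3 : b < c)
    (h4 : b < d) : ¬ cross s(a, b) s(c, d) := by
  rcases lt_or_gt_of_ne hab with h5 | h5 <;> rcases lt_or_gt_of_ne hcd with h6 | h6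
  · exact h.ord a b c d h5 h3 h6
  · rw [Sym2.eq_swap (a := c)]
    exact h.ord a b d c h5 h4 h6
  · rw [Sym2.eq_swap (a := a)]
    exact h.ord b a c d h5 h1 h6
  · rw [Sym2.eq_swap (a := a), Sym2.eq_swap (a := c)]
    exact h.ord b a d c h5 h2 h6

/-- The forbidden pattern of six points. -/
theorem OC.pat (h : OC cross) {i i0 j k l l0 : V} (hij : i < j) (hi0j : i0 < j) (hjk : j < k) (hkl : k < l)
    (hkl0 : k < l0) (h1 : cross s(i, k) s(j, l)) (h2 : cross s(i0, l0) s(j, k)) (h3 : ¬ cross s(i0, l0) s(i, k))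
    (h4 : ¬ cross s(i0, l0) s(j, l)) : False := by
  have hik : i < k := hij.trans hjk
  have hi0k : i0 < k := hi0j.trans hjk
  have hil : i < l := hik.trans hkl
  have hjl : j < l := hjk.trans hkl
  have hjl0 : j < l0 := hjk.trans hkl0
  obtain ⟨g, hg⟩ := h.sep k i j l (by rw [Sym2.eq_swap (a := k)]; exact h1)
  have e1 : g i0 + g l0 = 1 := by
    rw [← hg i0 l0 (hi0k.trans hkl0).ne hi0k.ne hi0j.ne hkl0.ne' hjl0.ne'
      (by rw [Sym2.eq_swap (a := k)]; exact h3) h4]
    exact cr_one (by rw [Sym2.eq_swap (a := k)]; exact h2)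
  have e2 : g i = g i0 := by
    by_cases hii : i = i0
    · rw [hii]
    · have h5 := hg i i0 hii hik.ne hij.ne hi0k.ne hi0j.ne
        (by rw [Sym2.eq_swap (a := k)]; exact h.adj i i0 k) (h.far hii hjl.ne hij hil hi0j (hi0j.trans hjl))
      rw [cr_zero (h.far hii hjk.ne' hik hij hi0k hi0j)] at h5
      exact CharTwo.add_eq_zero.1 h5.symm
  have e3 : g l = g l0 := by
    by_cases hll : l = l0
    · rw [hll]
    · have h5 := hg l l0 hll hkl.ne' hjl.ne' hkl0.ne' hjl0.ne'
        (fun h6 => h.far hik.ne' hll hkl hkl0 hil (hik.trans hkl0) (h.symm _ _ h6))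
        (by rw [Sym2.eq_swap (a := j)]; exact h.adj l l0 j)
      rw [cr_zero (fun h6 => h.far hjk.ne' hll hkl hkl0 hjl hjl0 (h.symm _ _ h6))] at h5
      exact CharTwo.add_eq_zero.1 h5.symm
  have e4 : g i = g l := by
    have h5 := hg i l hil.ne hik.ne hij.ne hkl.ne' hjl.ne'
      (by rw [Sym2.eq_swap (a := k)]; exact h.adj i l k)
      (by rw [Sym2.eq_swap (a := i), Sym2.eq_swap (a := j)]; exact h.adj l i j)
    rw [cr_zero (h.one i k l j (by rw [Sym2.eq_swap (a := l)]; exact h1))] at h5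
    exact CharTwo.add_eq_zero.1 h5.symm
  rw [← e2, ← e3, e4, CharTwo.add_self_eq_zero] at e1
  exact zero_ne_one e1

/-- GOOD VERTEX: `L` below `k`, `Z` a plane set of pairs from `L` to above `k`: some `(i, k)`, `i ∈ L`, is free. -/
theorem star_free (h : OC cross) {k : V} : ∀ (m : ℕ) (L : Finset V), L.card = m → L.Nonempty → (∀ i ∈ L, i < k) →
    ∀ Z : Finset (V × V), (∀ z ∈ Z, z.1 ∈ L ∧ k < z.2) →
      (∀ z ∈ Z, ∀ z' ∈ Z, ¬ cross s(z.1, z.2) s(z'.1, z'.2)) → ∃ i ∈ L, ∀ z ∈ Z, ¬ cross s(i, k) s(z.1, z.2) := by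
  intro m
  induction m with
  | zero =>
    intro L hL hne
    rw [Finset.card_eq_zero] at hL
    rw [hL] at hne
    exact absurd hne Finset.not_nonempty_empty
  | succ m ih =>
    intro L hL hne hLk Z hZ hp
    obtain ⟨j, hj, hjmax⟩ := Finset.exists_max_image L id hne
    by_cases hfree : ∀ z ∈ Z, ¬ cross s(j, k) s(z.1, z.2)
    · exact ⟨j, hj, hfree⟩
    · push Not at hfree
      obtain ⟨z0, hz0, hx0⟩ := hfree
      have hz0j : z0.1 ≠ j := by
        intro h1
        rw [h1] at hx0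
        exact h.adj j k z0.2 hx0
      have hlt : ∀ i ∈ L.erase j, i < j := fun i hi =>
        lt_of_le_of_ne (hjmax i (mem_of_mem_erase hi)) (ne_of_mem_erase hi)
      obtain ⟨i, hi, hifree⟩ := ih (L.erase j) (by rw [card_erase_of_mem hj, hL]; rfl)
        ⟨z0.1, mem_erase.2 ⟨hz0j, (hZ z0 hz0).1⟩⟩ (fun i hi => hLk i (mem_of_mem_erase hi))
        (Z.filter fun z => z.1 ≠ j) (fun z hz => by
          rw [mem_filter] at hz
          exact ⟨mem_erase.2 ⟨hz.2, (hZ z hz.1).1⟩, (hZ z hz.1).2⟩)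
        (fun z hz z' hz' => hp z (mem_filter.1 hz).1 z' (mem_filter.1 hz').1)
      refine ⟨i, mem_of_mem_erase hi, fun z hz hx => ?_⟩
      by_cases hzj : z.1 = j
      · rw [hzj] at hx
        refine h.pat (hlt i hi) (hlt z0.1 (mem_erase.2 ⟨hz0j, (hZ z0 hz0).1⟩)) (hLk j hj) (hZ z hz).2
          (hZ z0 hz0).2 hx (h.symm _ _ hx0)
          (fun h6 => hifree z0 (mem_filter.2 ⟨hz0, hz0j⟩) (h.symm _ _ h6)) (fun h6 => ?_)
        rw [← hzj] at h6
        exact hp z0 hz0 z hz h6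
      · exact hifree z (mem_filter.2 ⟨hz, hzj⟩) hx

/-- the crossing relation on pairs -/
def crossP (cross : Sym2 V → Sym2 V → Prop) (p q : V × V) : Prop := cross s(p.1, p.2) s(q.1, q.2)

theorem ac_closed (h : OC cross) {D : Finset (V × V)} (hne : D.Nonempty) (hlt : ∀ p ∈ D, p.1 < p.2)
    (hex : ∀ p ∈ D, ∀ q ∈ D, p.1 < q.2 → q.1 < p.2 → (p.1, q.2) ∈ D) :
    AC fun G => Plane (crossP cross) G ∧ G ⊆ D := by
  classical
  obtain ⟨p0, hp0, hmin⟩ := Finset.exists_min_image D Prod.snd hne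
  obtain ⟨k, hk⟩ : ∃ k, k = p0.2 := ⟨_, rfl⟩
  rw [← hk] at hmin
  intro z hz hb
  obtain ⟨d, h1, h2⟩ := H98P.acyclic (cross := crossP cross) (fun e f => h.symm _ _) (L := D)
    (S := D.filter fun p => p.2 = k) (filter_subset _ _) (fun p hp q hq hx => by
      rw [mem_filter] at hp hq
      unfold crossP at hx
      rw [hp.2, hq.2, Sym2.eq_swap (b := k), Sym2.eq_swap (b := k)] at hx
      exact h.adj _ _ _ hx) (fun F hF hFp => by
      obtain ⟨i, hi, hfree⟩ := star_free h (k := k) _ ((D.filter fun p => p.2 = k).image Prod.fst) rfl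
        ⟨p0.1, mem_image.2 ⟨p0, mem_filter.2 ⟨hp0, hk.symm⟩, rfl⟩⟩
        (fun i hi => by
          obtain ⟨p, hp, rfl⟩ := mem_image.1 hi
          rw [mem_filter] at hp
          rw [← hp.2]
          exact hlt p hp.1)
        (F.filter fun z => z.1 ∈ (D.filter fun p => p.2 = k).image Prod.fst ∧ k < z.2)
        (fun z hz => (mem_filter.1 hz).2)
        (fun z hz z' hz' => hFp z (mem_filter.1 hz).1 z' (mem_filter.1 hz').1)
      obtain ⟨p, hp, hpi⟩ := mem_image.1 hi
      have hpk : p = (i, k) := by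
        rw [mem_filter] at hp
        exact Prod.ext hpi hp.2
      rw [hpk] at hp
      refine ⟨(i, k), hp, fun f hf hx => ?_⟩
      rw [mem_filter] at hp
      have hfD := mem_sdiff.1 (hF hf)
      have hf2 : f.2 ≠ k := fun h3 => hfD.2 (mem_filter.2 ⟨hfD.1, h3⟩)
      have hkf : k < f.2 := lt_of_le_of_ne (hmin f hfD.1) hf2.symm
      have hik : i < k := hlt _ hp.1
      have hfk : f.1 < k := by
        by_contra h3
        rcases (not_lt.1 h3).eq_or_lt with h4 | h4
        · unfold crossP at hx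
          rw [← h4, Sym2.eq_swap (a := i)] at hx
          exact h.adj _ _ _ hx
        · exact h.ord i k f.1 f.2 hik h4 (hlt f hfD.1) hx
      have hfL : (f.1, k) ∈ D := hex f hfD.1 (i, k) hp.1 hfk (hik.trans hkf)
      exact hfree f (mem_filter.2 ⟨hf, mem_image.2 ⟨(f.1, k), mem_filter.2 ⟨hfL, rfl⟩, rfl⟩, hkf⟩) hx)
    (c := z) (fun σ hσ => ⟨(hz σ hσ).2, (hz σ hσ).1⟩) hb
  exact ⟨d, fun s hs => ⟨(h1 s hs).2, (h1 s hs).1⟩, h2⟩

/-- the increasing pairs -/
def Up (V : Type*) [Fintype V] [LinearOrder V] : Finset (V × V) := univ.filter fun p => p.1 < p.2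

theorem mem_Up {p : V × V} : p ∈ Up V ↔ p.1 < p.2 := by
  unfold Up
  rw [mem_filter]
  exact ⟨fun h => h.2, fun h => ⟨mem_univ _, h⟩⟩

theorem ac_argmax (h : OC cross) (hne : (Up V).Nonempty) (al be : V → ℝ) :
    AC fun G => Plane (crossP cross) G ∧
      ∀ p ∈ G, p ∈ Up V ∧ ∀ q ∈ Up V, al q.1 + be q.2 ≤ al p.1 + be p.2 := by
  classical
  obtain ⟨D, hD⟩ : ∃ D : Finset (V × V), ∀ p, p ∈ D ↔ p ∈ Up V ∧ ∀ q ∈ Up V, al q.1 + be q.2 ≤ al p.1 + be p.2 :=
    ⟨(Up V).filter fun p => ∀ q ∈ Up V, al q.1 + be q.2 ≤ al p.1 + be p.2, fun p => mem_filter⟩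
  have h1 : (fun G => Plane (crossP cross) G ∧
      ∀ p ∈ G, p ∈ Up V ∧ ∀ q ∈ Up V, al q.1 + be q.2 ≤ al p.1 + be p.2) =
      fun G => Plane (crossP cross) G ∧ G ⊆ D := by
    funext G
    apply propext
    refine and_congr_right fun _ => ?_
    exact ⟨fun h p hp => (hD p).2 (h p hp), fun h p hp => (hD p).1 (h hp)⟩
  rw [h1]
  refine ac_closed h ?_ (fun p hp => mem_Up.1 ((hD p).1 hp).1) ?_
  · obtain ⟨p, hp, hmax⟩ := Finset.exists_max_image (Up V) (fun p => al p.1 + be p.2) hne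
    exact ⟨p, (hD p).2 ⟨hp, hmax⟩⟩
  · intro p hp q hq h2 h3
    rw [hD] at hp hq
    have h4 := hp.2 (p.1, q.2) (mem_Up.2 h2)
    have h5 := hp.2 (q.1, p.2) (mem_Up.2 h3)
    have h6 := hp.2 q hq.1
    have h7 := hq.2 p hp.1
    simp only at h4 h5
    refine (hD _).2 ⟨mem_Up.2 h2, fun r hr => ?_⟩
    have h8 := hp.2 r hr
    show al r.1 + be r.2 ≤ al p.1 + be q.2
    linarith

/-- REAL FLOWS: every nonnegative matrix above the diagonal can be made plane without changing the row and column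
sums. -/
theorem real_flow (h : OC cross) (x : V → V → ℝ) (hx0 : ∀ i j, 0 ≤ x i j) (hx : ∀ i j, x i j ≠ 0 → i < j) :
    ∃ y : V → V → ℝ, (∀ i j, 0 ≤ y i j) ∧ (∀ i j, y i j ≠ 0 → i < j) ∧
      (∀ i, ∑ j, y i j = ∑ j, x i j) ∧ (∀ j, ∑ i, y i j = ∑ i, x i j) ∧
      ∀ i j k l, y i j ≠ 0 → y k l ≠ 0 → ¬ cross s(i, j) s(k, l) := by
  by_cases hne : (Up V).Nonempty
  · obtain ⟨y, G, hG, h1, h2, h3, h4⟩ := transport (Ga := Up V) (K := Plane (crossP cross))
      (fun s t hst ht e he f hf => ht e (hst he) f (hst hf)) (fun e he => absurd he (notMem_empty e))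
      (ac_argmax h hne) x hx0 (fun i j hij => mem_Up.2 (hx i j hij))
    exact ⟨y, h1, fun i j hij => mem_Up.1 (h2 i j hij).2, h3, h4,
      fun i j k l h5 h6 => hG _ (h2 i j h5).1 _ (h2 k l h6).1⟩
  · have hz : ∀ i j, x i j = 0 := by
      intro i j
      by_contra h1
      exact hne ⟨(i, j), mem_Up.2 (hx i j h1)⟩
    exact ⟨x, hx0, hx, fun _ => rfl, fun _ => rfl, fun i j k l h1 => absurd (hz i j) h1⟩

end H36O
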