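import Pool.Agent.Lib.H36O.HP
import Pool.Agent.Lib.H98M.MT
import Pool.Agent.Lib.H63L.FIN

/-!
# H36O, file D1: orders without separated crossings of a simple drawing
-/

set_option autoImplicit false
set_option linter.unusedSectionVars false

open H53P SimpleDraw

namespace H36O

open Finset H98P H63F H98M

/-- the crossing relation seen through a numbering of the vertices -/
def cm {n : ℕ} (T : Table (Fin n)) (σ : Equiv.Perm (Fin n)) (e f : Sym2 (Fin n)) : Prop :=
  crossT T (e.map σ) (f.map σ)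

theorem cm_mk {n : ℕ} (T : Table (Fin n)) (σ : Equiv.Perm (Fin n)) (a b c d : Fin n) :
    cm T σ s(a, b) s(c, d) ↔ T.X (σ a) (σ b) (σ c) (σ d) = true := by
  unfold cm
  rw [Sym2.map_mk, Sym2.map_mk]
  exact crossT_mk T _ _ _ _

theorem cr_cm {n : ℕ} (T : Table (Fin n)) (σ : Equiv.Perm (Fin n)) (e f : Sym2 (Fin n)) :
    cr (cm T σ) e f = cr (crossT T) (e.map σ) (f.map σ) := by
  by_cases h : cm T σ e f
  · rw [cr_one h, cr_one (show crossT T (e.map σ) (f.map σ) from h)]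
  · rw [cr_zero h, cr_zero (show ¬ crossT T (e.map σ) (f.map σ) from h)]

theorem oc_cm {n : ℕ} (T : Table (Fin n)) (σ : Equiv.Perm (Fin n))
    (hord : ∀ i j k l : Fin n, i < j → j < k → k < l → T.X (σ i) (σ j) (σ k) (σ l) = false) : OC (cm T σ) where
  symm := fun e f h => (geo_table T).symm _ _ h
  adj := fun a b c h => by
    rw [cm_mk] at h
    exact (T.ne _ _ _ _ h).2.2.1 rfl
  one := fun a b c d h h' => by
    rw [cm_mk] at h h'
    rw [T.one _ _ _ _ h] at h'
    exact absurd h' (by decide)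
  sep := fun w w' z z' h => by
    unfold cm at h
    rw [Sym2.map_mk, Sym2.map_mk] at h
    obtain ⟨g, hg⟩ := (geo_table T).sep _ _ _ _ h
    refine ⟨fun v => g (σ v), fun y y' h0 h1 h2 h3 h4 h5 h6 => ?_⟩
    rw [cr_cm, Sym2.map_mk, Sym2.map_mk]
    have inj := σ.injective
    refine hg (σ y) (σ y') (fun e => h0 (inj e)) (fun e => h1 (inj e)) (fun e => h2 (inj e)) (fun e => h3 (inj e))
      (fun e => h4 (inj e)) ?_ ?_
    · unfold cm at h5
      rw [Sym2.map_mk, Sym2.map_mk] at h5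
      exact h5
    · unfold cm at h6
      rw [Sym2.map_mk, Sym2.map_mk] at h6
      exact h6
  ord := fun i j k l h1 h2 h3 h4 => by
    rw [cm_mk, hord i j k l h1 h2 h3] at h4
    exact absurd h4 (by decide)

/-- disjoint curves do not cross -/
theorem x_disj {n : ℕ} (D : SimpleDrawing n) {a b c d : Fin n} (h : Disjoint (D.curve a b) (D.curve c d)) :
    (table D).X a b c d = false := by
  show X D a b c d = false
  unfold X
  rw [decide_eq_false_iff_not]
  rintro ⟨-, -, -, -, -, -, p, hp⟩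
  exact Set.disjoint_iff.1 h hp

/-- the hypothesis: the numbering `σ` of the vertices has no separated crossing -/
def Ord {n : ℕ} (D : SimpleDrawing n) (σ : Equiv.Perm (Fin n)) : Prop :=
  ∀ i j k l : Fin n, i < j → j < k → k < l → Disjoint (D.curve (σ i) (σ j)) (D.curve (σ k) (σ l))

theorem oc_of {n : ℕ} (D : SimpleDrawing n) (σ : Equiv.Perm (Fin n)) (h : Ord D σ) : OC (cm (table D) σ) :=
  oc_cm _ σ fun i j k l h1 h2 h3 => x_disj D (h i j k l h1 h2 h3)

/-- plane sets seen through the numbering -/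
theorem plane_cm {n : ℕ} (D : SimpleDrawing n) (σ : Equiv.Perm (Fin n)) {G : SimpleGraph (Fin n)}
    (h : ∀ a b c d, G.Adj a b → G.Adj c d → ¬ cm (table D) σ s(a, b) s(c, d)) : D.Plane (G.map σ.toEmbedding) := by
  apply H63L.plane_of_table
  intro i j k l hij hkl
  rw [SimpleGraph.map_adj] at hij hkl
  obtain ⟨a, b, hab, rfl, rfl⟩ := hij
  obtain ⟨c, d, hcd, rfl, rfl⟩ := hkl
  have h1 := h a b c d hab hcd
  rw [cm_mk] at h1
  exact Bool.eq_false_iff.2 h1

/-- walks under a renumbering -/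
theorem map_walk {V : Type*} (G : SimpleGraph V) (σ : Equiv.Perm V) {u v : V} (p : G.Walk u v) :
    ∃ q : (G.map σ.toEmbedding).Walk (σ u) (σ v), q.support = p.support.map σ := by
  induction p with
  | nil => exact ⟨SimpleGraph.Walk.nil, rfl⟩
  | cons h p ih =>
    obtain ⟨q, hq⟩ := ih
    refine ⟨SimpleGraph.Walk.cons (SimpleGraph.map_adj _ _ _ _ |>.2 ⟨_, _, h, rfl, rfl⟩) q, ?_⟩
    rw [SimpleGraph.Walk.support_cons, SimpleGraph.Walk.support_cons, hq, List.map_cons]

/-- PATHS in drawings. -/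
theorem drawing_paths {n : ℕ} (D : SimpleDrawing n) (σ : Equiv.Perm (Fin n)) (h : Ord D σ) (s t : Fin n)
    (hst : s ≠ t) : ∃ G : SimpleGraph (Fin n), D.Plane G ∧ ∃ p : G.Walk s t, p.IsHamiltonian := by
  obtain ⟨G, hG, p, hp⟩ := paths (oc_of D σ h) (s := σ.symm s) (t := σ.symm t)
    (fun h1 => hst (σ.symm.injective h1))
  obtain ⟨q, hq⟩ : ∃ q : (G.map σ.toEmbedding).Walk (σ (σ.symm s)) (σ (σ.symm t)), q.IsHamiltonian := by
    obtain ⟨q, hq⟩ := map_walk G σ p
    refine ⟨q, fun a => ?_⟩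
    rw [hq]
    have h2 : List.count (σ (σ.symm a)) (p.support.map σ) = 1 :=
      (List.count_map_of_injective _ _ σ.injective _).trans (hp (σ.symm a))
    rw [σ.apply_symm_apply] at h2
    exact h2
  refine ⟨G.map σ.toEmbedding, plane_cm D σ hG, ?_⟩
  have h3 : ∀ (s' t' : Fin n), s' = s → t' = t → (∃ q : (G.map σ.toEmbedding).Walk s' t', q.IsHamiltonian) →
      ∃ q : (G.map σ.toEmbedding).Walk s t, q.IsHamiltonian := by
    rintro s' t' rfl rfl h
    exact h
  exact h3 _ _ (σ.apply_symm_apply s) (σ.apply_symm_apply t) ⟨_, hq⟩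

/-- FLOWS in drawings: every multigraph has a plane one with the same numbers of upper and lower neighbours. -/
theorem drawing_flow {n : ℕ} (D : SimpleDrawing n) (σ : Equiv.Perm (Fin n)) (h : Ord D σ) (x : Fin n → Fin n → ℕ)
    (hx : ∀ i j, x i j ≠ 0 → i < j) :
    ∃ (G : SimpleGraph (Fin n)) (y : Fin n → Fin n → ℕ), D.Plane G ∧
      (∀ i j, y i j ≠ 0 → i < j ∧ G.Adj (σ i) (σ j)) ∧ (∀ i, ∑ j, y i j = ∑ j, x i j) ∧
      ∀ j, ∑ i, y i j = ∑ i, x i j := by
  obtain ⟨y, h1, h2, h3, h4⟩ := nat_flow (oc_of D σ h) x hx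
  refine ⟨(gz y).map σ.toEmbedding, y, plane_cm D σ ?_, fun i j hij => ⟨h1 i j hij, ?_⟩, h2, h3⟩
  · intro a b c d hab hcd
    rw [gz_adj] at hab hcd
    rcases hab.2 with h5 | h5 <;> rcases hcd.2 with h6 | h6
    · exact h4 _ _ _ _ h5 h6
    · rw [Sym2.eq_swap (a := c)]
      exact h4 _ _ _ _ h5 h6
    · rw [Sym2.eq_swap (a := a)]
      exact h4 _ _ _ _ h5 h6
    · rw [Sym2.eq_swap (a := a), Sym2.eq_swap (a := c)]
      exact h4 _ _ _ _ h5 h6
  · rw [SimpleGraph.map_adj]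
    exact ⟨i, j, gz_adj.2 ⟨(h1 i j hij).ne, Or.inl hij⟩, rfl, rfl⟩

end H36O
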