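import Pool.Agent.Lib.H36O.D1
import Pool.Agent.Lib.H20S.C
import Pool.Agent.Lib.H97W.FinQ

/-!
# H36O, file D2: plane Hamiltonian subdrawings with exactly `2n - 3` edges
-/

set_option autoImplicit false
set_option linter.unusedSectionVars false

open H53P SimpleDraw

namespace H36O

open Finset H98P H63F H98M

/-- the perturbed nonplane flow -/
noncomputable def x1 {n : ℕ} (ε : ℝ) (i j : Fin n) : ℝ :=
  (if (j : ℕ) = i + 1 then 1 else 0) + (if (i : ℕ) = 0 ∧ (j : ℕ) + 1 = n then 1 else 0) +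
    (if (i : ℕ) + 1 ≠ n ∧ (j : ℕ) + 1 = n then ε else 0)

theorem sum_indr {n : ℕ} (P : Fin n → Prop) [DecidablePred P] (a : ℝ) (c : ℕ) (hc : c < n)
    (h : ∀ j : Fin n, P j → (j : ℕ) = c) :
    ∑ j : Fin n, (if P j then a else 0) = if P ⟨c, hc⟩ then a else 0 := by
  rw [Finset.sum_eq_single (⟨c, hc⟩ : Fin n)]
  · intro b _ hb
    rw [if_neg]
    intro h1
    exact hb (Fin.ext (h b h1))
  · intro h1
    exact absurd (mem_univ _) h1

theorem x1_row {n : ℕ} (hn : 3 ≤ n) (ε : ℝ) (i : Fin n) :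
    ∑ j, x1 ε i j = if (i : ℕ) + 1 = n then 0 else (if (i : ℕ) = 0 then 2 else 1) + ε := by
  have hi := i.2
  unfold x1
  rw [Finset.sum_add_distrib, Finset.sum_add_distrib]
  have e1 : ∑ j : Fin n, (if (j : ℕ) = i + 1 then (1 : ℝ) else 0) = if (i : ℕ) + 1 < n then 1 else 0 := by
    by_cases h1 : (i : ℕ) + 1 < n
    · rw [sum_indr _ 1 ((i : ℕ) + 1) h1 (fun j hj => hj), if_pos rfl, if_pos h1]
    · rw [if_neg h1]
      refine Finset.sum_eq_zero fun j _ => ?_
      rw [if_neg]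
      intro h2
      have := j.2
      omega
  have e2 : ∑ j : Fin n, (if (i : ℕ) = 0 ∧ (j : ℕ) + 1 = n then (1 : ℝ) else 0) = if (i : ℕ) = 0 then 1 else 0 := by
    rw [sum_indr _ 1 (n - 1) (by omega) (fun j hj => by omega)]
    refine if_congr ?_ rfl rfl
    show (i : ℕ) = 0 ∧ (n - 1) + 1 = n ↔ _
    omega
  have e3 : ∑ j : Fin n, (if (i : ℕ) + 1 ≠ n ∧ (j : ℕ) + 1 = n then ε else 0) =
      if (i : ℕ) + 1 ≠ n then ε else 0 := by
    rw [sum_indr _ ε (n - 1) (by omega) (fun j hj => by omega)]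
    refine if_congr ?_ rfl rfl
    show (i : ℕ) + 1 ≠ n ∧ (n - 1) + 1 = n ↔ _
    omega
  rw [e1, e2, e3]
  by_cases h1 : (i : ℕ) + 1 = n
  · have h2 : ¬ (i : ℕ) + 1 < n := by omega
    have h3 : ¬ (i : ℕ) = 0 := by omega
    simp [h1, h3]
  · have h2 : (i : ℕ) + 1 < n := by omega
    by_cases h3 : (i : ℕ) = 0
    · simp only [h1, h2, h3, ne_eq, not_false_eq_true, if_true, if_false]
      rw [if_pos (by omega : 0 + 1 < n), if_pos (by omega : ¬ 0 + 1 = n), if_neg (by omega : ¬ 0 + 1 = n)]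
      norm_num
    · simp only [h1, h2, h3, ne_eq, not_false_eq_true, if_true, if_false]
      ring

theorem x1_col {n : ℕ} (hn : 3 ≤ n) (ε : ℝ) (j : Fin n) :
    ∑ i, x1 ε i j = if (j : ℕ) = 0 then 0 else if (j : ℕ) + 1 = n then 2 + ((n : ℝ) - 1) * ε else 1 := by
  have hj := j.2
  unfold x1
  rw [Finset.sum_add_distrib, Finset.sum_add_distrib]
  have e1 : ∑ i : Fin n, (if (j : ℕ) = i + 1 then (1 : ℝ) else 0) = if 0 < (j : ℕ) then 1 else 0 := by
    by_cases h1 : 0 < (j : ℕ)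
    · rw [sum_indr _ 1 ((j : ℕ) - 1) (by omega) (fun i hi => by omega), if_pos h1, if_pos]
      show (j : ℕ) = (j : ℕ) - 1 + 1
      omega
    · rw [if_neg h1]
      refine Finset.sum_eq_zero fun i _ => ?_
      rw [if_neg]
      intro h2
      omega
  have e2 : ∑ i : Fin n, (if (i : ℕ) = 0 ∧ (j : ℕ) + 1 = n then (1 : ℝ) else 0) =
      if (j : ℕ) + 1 = n then 1 else 0 := by
    rw [sum_indr _ 1 0 (by omega) (fun i hi => hi.1)]
    refine if_congr ?_ rfl rfl
    simp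
  have e3 : ∑ i : Fin n, (if (i : ℕ) + 1 ≠ n ∧ (j : ℕ) + 1 = n then ε else 0) =
      if (j : ℕ) + 1 = n then ((n : ℝ) - 1) * ε else 0 := by
    by_cases h1 : (j : ℕ) + 1 = n
    · simp only [h1, and_true, if_true]
      have h2 : ∀ i : Fin n, (if (i : ℕ) + 1 ≠ n then ε else 0) = ε - if (i : ℕ) + 1 = n then ε else 0 := by
        intro i
        by_cases h3 : (i : ℕ) + 1 = n <;> simp [h3]
      rw [Finset.sum_congr rfl fun i _ => h2 i, Finset.sum_sub_distrib,
        sum_indr _ ε (n - 1) (by omega) (fun i hi => by omega), if_pos (by show n - 1 + 1 = n; omega)]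
      simp
      ring
    · simp [h1]
  rw [e1, e2, e3]
  by_cases h1 : (j : ℕ) = 0
  · have h2 : ¬ (j : ℕ) + 1 = n := by omega
    have h3 : ¬ 0 < (j : ℕ) := by omega
    rw [if_neg h3, if_neg h2, if_neg h2, if_pos h1]
    norm_num
  · have h3 : 0 < (j : ℕ) := by omega
    rw [if_pos h3, if_neg h1]
    by_cases h2 : (j : ℕ) + 1 = n
    · rw [if_pos h2, if_pos h2, if_pos h2]
      ring
    · rw [if_neg h2, if_neg h2, if_neg h2]
      norm_num

/-- PLANE HAMILTONIAN SUBDRAWINGS with exactly `2n - 3` edges. -/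
theorem drawing_cycle {n : ℕ} (hn : 3 ≤ n) (D : SimpleDrawing n) (σ : Equiv.Perm (Fin n)) (h : Ord D σ) :
    D.HasPlaneHamiltonian := by
  classical
  have hV : 3 ≤ Fintype.card (Fin n) := by rw [Fintype.card_fin]; exact hn
  have hn' : (3 : ℝ) ≤ n := by exact_mod_cast hn
  obtain ⟨ε, hε⟩ : ∃ ε : ℝ, ε = 1 / (2 * n) := ⟨_, rfl⟩
  have hε0 : 0 < ε := by
    rw [hε]
    positivity
  have hε1 : ε * ((Fintype.card (Fin n) : ℝ) - 1) < 1 := by
    rw [Fintype.card_fin, hε, div_mul_eq_mul_div, one_mul, div_lt_one (by linarith)]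
    linarith
  obtain ⟨y, h1, h2, h3, h4, h5⟩ := real_flow (oc_of D σ h) (x1 ε)
    (fun i j => by unfold x1; positivity) (fun i j hij => by
      rw [Fin.lt_def]
      have hi := i.2
      have hj := j.2
      by_contra hcon
      apply hij
      unfold x1
      rw [if_neg (by omega), if_neg (by omega), if_neg (by omega)]
      norm_num)
  obtain ⟨f, hf⟩ : ∃ f : Fin n, f = ⟨0, by omega⟩ := ⟨_, rfl⟩
  obtain ⟨l, hl⟩ : ∃ l : Fin n, l = ⟨n - 1, by omega⟩ := ⟨_, rfl⟩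
  have hf0 : (f : ℕ) = 0 := by rw [hf]
  have hl0 : (l : ℕ) + 1 = n := by rw [hl]; show n - 1 + 1 = n; omega
  have hff : ∀ i : Fin n, i ≠ f → (i : ℕ) ≠ 0 := fun i hi h6 => hi (Fin.ext (by rw [h6, hf0]))
  have hll : ∀ i : Fin n, i ≠ l → (i : ℕ) + 1 ≠ n := fun i hi h6 => hi (Fin.ext (by omega))
  -- the flow on the vertices of the drawing
  obtain ⟨x', hx'⟩ : ∃ x' : Fin n → Fin n → ℝ, ∀ u v, x' u v = y (σ.symm u) (σ.symm v) :=
    ⟨fun u v => y (σ.symm u) (σ.symm v), fun _ _ => rfl⟩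
  have hrow : ∀ u, ∑ v, x' u v = ∑ j, y (σ.symm u) j := by
    intro u
    rw [Finset.sum_congr rfl fun v _ => hx' u v]
    exact Equiv.sum_comp σ.symm fun j => y (σ.symm u) j
  have hcol : ∀ v, ∑ u, x' u v = ∑ i, y i (σ.symm v) := by
    intro v
    rw [Finset.sum_congr rfl fun u _ => hx' u v]
    exact Equiv.sum_comp σ.symm fun i => y i (σ.symm v)
  have hflow : H20S.Flow (fun v => ((σ.symm v : Fin n) : ℕ)) (σ f) (σ l) ε x' := by
    refine ⟨fun i => ?_, fun i => ?_, fun i j => ?_, fun i j hij => ?_, ?_, fun i hi1 hi2 => ?_,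
      fun j hj1 hj2 => ?_, ?_⟩
    · show ((σ.symm (σ f) : Fin n) : ℕ) ≤ _
      rw [σ.symm_apply_apply, hf0]
      exact Nat.zero_le _
    · show _ ≤ ((σ.symm (σ l) : Fin n) : ℕ)
      rw [σ.symm_apply_apply]
      have := (σ.symm i).2
      show ((σ.symm i : Fin n) : ℕ) ≤ _
      omega
    · rw [hx']
      exact h1 _ _
    · rw [hx'] at hij
      exact h2 _ _ hij
    · rw [hrow, σ.symm_apply_apply, h3, x1_row hn, if_neg (by omega), if_pos hf0]
    · have h6 : σ.symm i ≠ f := fun h7 => hi1 (by rw [← h7, σ.apply_symm_apply])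
      have h8 : σ.symm i ≠ l := fun h7 => hi2 (by rw [← h7, σ.apply_symm_apply])
      rw [hrow, h3, x1_row hn, if_neg (hll _ h8), if_neg (hff _ h6)]
    · have h6 : σ.symm j ≠ f := fun h7 => hj1 (by rw [← h7, σ.apply_symm_apply])
      have h8 : σ.symm j ≠ l := fun h7 => hj2 (by rw [← h7, σ.apply_symm_apply])
      rw [hcol, h4, x1_col hn, if_neg (hff _ h6), if_neg (hll _ h8)]
    · rw [hcol, σ.symm_apply_apply, h4, x1_col hn, if_neg (by omega), if_pos hl0, Fintype.card_fin]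
  -- the plane set
  obtain ⟨G, hG⟩ : ∃ G : Finset (Sym2 (Fin n)), G = (univ.filter fun p : Fin n × Fin n => x' p.1 p.2 ≠ 0).image
    fun p => s(p.1, p.2) := ⟨_, rfl⟩
  have hGm : ∀ e, e ∈ G ↔ ∃ u v, x' u v ≠ 0 ∧ s(u, v) = e := by
    intro e
    rw [hG, mem_image]
    constructor
    · rintro ⟨p, hp, he⟩
      exact ⟨p.1, p.2, (mem_filter.1 hp).2, he⟩
    · rintro ⟨u, v, hp, he⟩
      exact ⟨(u, v), mem_filter.2 ⟨mem_univ _, hp⟩, he⟩
  have hloop : ∀ v, s(v, v) ∉ G := by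
    intro v hv
    obtain ⟨a, b, hab, he⟩ := (hGm _).1 hv
    have h6 := hflow.lt a b hab
    rcases Sym2.eq_iff.1 he with ⟨h7, h8⟩ | ⟨h7, h8⟩
    · rw [h7, h8] at h6
      exact lt_irrefl _ h6
    · rw [h7, h8] at h6
      exact lt_irrefl _ h6
  have hGp : Plane (crossT (table D)) G := by
    intro e he e' he' hx
    obtain ⟨a, b, hab, rfl⟩ := (hGm e).1 he
    obtain ⟨c, d, hcd, rfl⟩ := (hGm e').1 he'
    rw [hx'] at hab hcd
    refine h5 _ _ _ _ hab hcd ?_
    rw [cm_mk]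
    simp only [σ.apply_symm_apply]
    exact (crossT_mk _ _ _ _ _).1 hx
  obtain ⟨h6, y', hy', hi⟩ := H20S.flow_main hV hε0 hε1 hflow (G := G)
    (fun i j hij => (hGm _).2 ⟨i, j, hij, rfl⟩) hloop
  rw [Fintype.card_fin] at h6
  obtain ⟨G', hG'1, hG'2, a, c, hc⟩ := H97W.ham_exact hV hy' hi (k := 2 * n - 3)
    (by rw [Fintype.card_fin]; omega) (by omega)
  refine ⟨H97W.gr G', H97W.plane_of D (fun e he e' he' => hGp e (hG'1 he) e' (hG'1 he')), ?_, a, c, hc⟩
  rw [H97W.ncard_edges (fun v hv => hloop v (hG'1 hv)), hG'2]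

/-- every level function gives such an order: `g` takes different values at the vertices and its values on an edge lie
between its values at the ends of the edge. -/
theorem ord_of_level {n : ℕ} (D : SimpleDrawing n) (g : ℂ → ℝ) (hinj : ∀ i j, g (D.pt i) = g (D.pt j) → i = j)
    (hg : ∀ i j, i ≠ j → ∀ p ∈ D.curve i j, min (g (D.pt i)) (g (D.pt j)) ≤ g p ∧
      g p ≤ max (g (D.pt i)) (g (D.pt j))) : ∃ σ : Equiv.Perm (Fin n), Ord D σ := by
  classical
  refine ⟨Tuple.sort fun i => g (D.pt i), fun i j k l hij hjk hkl => ?_⟩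
  obtain ⟨σ, hσ⟩ : ∃ σ : Equiv.Perm (Fin n), σ = Tuple.sort fun i => g (D.pt i) := ⟨_, rfl⟩
  rw [← hσ]
  have hmono : Monotone ((fun i => g (D.pt i)) ∘ σ) := by
    rw [hσ]
    exact Tuple.monotone_sort _
  have hlt : ∀ a b : Fin n, a < b → g (D.pt (σ a)) < g (D.pt (σ b)) := by
    intro a b hab
    refine lt_of_le_of_ne (hmono hab.le) fun h1 => ?_
    exact hab.ne (σ.injective (hinj _ _ h1))
  rw [Set.disjoint_left]
  intro p hp hq
  have h1 := (hg _ _ (fun h => hij.ne (σ.injective h)) p hp).2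
  have h2 := (hg _ _ (fun h => hkl.ne (σ.injective h)) p hq).1
  rw [max_eq_right (hlt i j hij).le] at h1
  rw [min_eq_left (hlt k l hkl).le] at h2
  exact absurd (h2.trans h1) (not_le.2 (hlt j k hjk))

end H36O
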