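import Pool.Agent.Lib.H36O.D2
import Pool.Agent.Lib.H94C.CN
import Pool.Agent.Lib.H20S.Z
import Pool.Agent.Lib.H5GT.F

/-!
# H36O, file D3: swap closed acyclic relations in simple drawings, the closure theorem, generalized twisted drawings
-/

set_option autoImplicit false
set_option linter.unusedSectionVars false

open H53P SimpleDraw

namespace H36O

open Finset H98P H63F H98M

/-- the edges `ij` and `kl` cross -/
def Crs {n : ℕ} (D : SimpleDrawing n) (i j k l : Fin n) : Prop :=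
  i ≠ j ∧ k ≠ l ∧ i ≠ k ∧ i ≠ l ∧ j ≠ k ∧ j ≠ l ∧ (D.curve i j ∩ D.curve k l).Nonempty

theorem crs_iff {n : ℕ} (D : SimpleDrawing n) (i j k l : Fin n) :
    crossT (table D) s(i, j) s(k, l) ↔ Crs D i j k l := by
  rw [crossT_mk]
  show X D i j k l = true ↔ _
  unfold X Crs
  exact @decide_eq_true_iff _ (Classical.dec _)

section
variable {n : ℕ} {V : Type}

theorem tab_one (T : Table (Fin n)) : ∀ a b c d, crossT T s(a, b) s(c, d) → ¬ crossT T s(a, c) s(b, d) := by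
  intro a b c d h h'
  rw [crossT_mk] at h h'
  rw [T.one _ _ _ _ h] at h'
  exact absurd h' (by decide)

/-- an acyclic swap closed relation with one source and one sink is a net -/
theorem net_of {D : SimpleDrawing n} {A : Fin n → Fin n → Prop} {r : Fin n → ℕ} (hr : ∀ i j, A i j → r i < r j)
    (hsw : ∀ i j k l, A i j → A k l → Crs D i j k l → A i l) {s t : Fin n} (hs : ∀ v, v ≠ s → ∃ w, A w v)
    (ht : ∀ v, v ≠ t → ∃ w, A v w) {B : Finset (Fin n × Fin n)} (hB : ∀ p, p ∈ B ↔ A p.1 p.2) :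
    H71V.Net (crossT (table D)) r s t B where
  inc := fun i j h => hr i j ((hB _).1 h)
  swp := fun i j k l h1 h2 h3 => (hB (i, l)).2 (hsw i j k l ((hB (i, j)).1 h1) ((hB (k, l)).1 h2)
    ((crs_iff D i j k l).1 h3))
  out := fun v hv => (ht v hv).imp fun w hw => (hB (v, w)).2 hw
  inn := fun v hv => (hs v hv).imp fun w hw => (hB (w, v)).2 hw

/-- FLOWS in acyclic swap closed relations. -/
theorem net_drawing (D : SimpleDrawing n) {A : Fin n → Fin n → Prop} {r : Fin n → ℕ}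
    (hr : ∀ i j, A i j → r i < r j) (hsw : ∀ i j k l, A i j → A k l → Crs D i j k l → A i l) {s t : Fin n}
    (hs : ∀ v, v ≠ s → ∃ w, A w v) (ht : ∀ v, v ≠ t → ∃ w, A v w) (x : Fin n → Fin n → ℕ)
    (hx : ∀ i j, x i j ≠ 0 → A i j) :
    ∃ z : Fin n → Fin n → ℕ, D.Plane (gz z) ∧ (∀ i j, z i j ≠ 0 → A i j) ∧
      (∀ i, ∑ j, z i j = ∑ j, x i j) ∧ (∀ j, ∑ i, z i j = ∑ i, x i j) ∧
      ∀ i j k l, z i j ≠ 0 → z k l ≠ 0 → ¬ crossT (table D) s(i, j) s(k, l) := by
  classical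
  obtain ⟨z, h1, h2, h3, h4⟩ := H94C.net_flow (geo_table (table D)).symm (geo_table (table D)).adj
    (tab_one (table D)) (geo_table (table D)).sep
    (net_of (B := univ.filter fun p : Fin n × Fin n => A p.1 p.2) hr hsw hs ht (fun p => by
      rw [mem_filter]
      exact ⟨fun h => h.2, fun h => ⟨mem_univ _, h⟩⟩)) x
    (fun i j hij => mem_filter.2 ⟨mem_univ _, hx i j hij⟩)
  refine ⟨z, ?_, fun i j hij => (mem_filter.1 (h1 i j hij)).2, h2, h3, h4⟩
  apply H63L.plane_of_table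
  intro a b c d hab hcd
  rw [gz_adj] at hab hcd
  rw [← Bool.not_eq_true, ← crossT_mk]
  rcases hab.2 with h5 | h5 <;> rcases hcd.2 with h6 | h6
  · exact h4 _ _ _ _ h5 h6
  · rw [Sym2.eq_swap (a := c)]
    exact h4 _ _ _ _ h5 h6
  · rw [Sym2.eq_swap (a := a)]
    exact h4 _ _ _ _ h5 h6
  · rw [Sym2.eq_swap (a := a), Sym2.eq_swap (a := c)]
    exact h4 _ _ _ _ h5 h6

/-- the tour `0, 1, .., n - 1`, oriented from `0` to `m` on both sides -/
def TA (m : ℕ) (a b : Fin n) : Prop :=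
  ((a : ℕ) + 1 = b ∧ (b : ℕ) ≤ m) ∨ ((b : ℕ) + 1 = a ∧ m ≤ (b : ℕ)) ∨ ((a : ℕ) = 0 ∧ (b : ℕ) + 1 = n)

/-- its flow -/
def xt (m : ℕ) (a b : Fin n) : ℕ :=
  (if (a : ℕ) + 1 = b ∧ (b : ℕ) ≤ m then 1 else 0) + (if (b : ℕ) + 1 = a ∧ m ≤ (b : ℕ) then 1 else 0) +
    (if (a : ℕ) = 0 ∧ (b : ℕ) + 1 = n then 1 else 0)

theorem xt_ta {m : ℕ} {a b : Fin n} (h : xt m a b ≠ 0) : TA m a b := by
  by_contra hcon
  apply h
  unfold TA at hcon
  push Not at hcon
  unfold xt
  rw [if_neg (fun h1 => absurd h1.2 (not_le.2 (hcon.1 h1.1))),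
    if_neg (fun h1 => absurd h1.2 (not_le.2 (hcon.2.1 h1.1))), if_neg (fun h1 => hcon.2.2 h1.1 h1.2)]

theorem xt_row {m : ℕ} (hm : 0 < m) (hmn : m < n) (a : Fin n) :
    ∑ b, xt m a b = if (a : ℕ) = 0 then 2 else if (a : ℕ) = m then 0 else 1 := by
  have ha := a.2
  unfold xt
  rw [Finset.sum_add_distrib, Finset.sum_add_distrib]
  have e1 : ∑ b : Fin n, (if (a : ℕ) + 1 = b ∧ (b : ℕ) ≤ m then 1 else 0) = if (a : ℕ) < m then 1 else 0 := by
    by_cases h1 : (a : ℕ) + 1 < n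
    · rw [sum_ind _ ((a : ℕ) + 1) h1 (fun b hb => hb.1.symm)]
      refine if_congr ?_ rfl rfl
      show (a : ℕ) + 1 = a + 1 ∧ (a : ℕ) + 1 ≤ m ↔ _
      omega
    · rw [if_neg (by omega)]
      refine Finset.sum_eq_zero fun b _ => ?_
      rw [if_neg]
      intro h2
      have := b.2
      omega
  have e2 : ∑ b : Fin n, (if (b : ℕ) + 1 = a ∧ m ≤ (b : ℕ) then 1 else 0) = if m < (a : ℕ) then 1 else 0 := by
    by_cases h1 : 0 < (a : ℕ)
    · rw [sum_ind _ ((a : ℕ) - 1) (by omega) (fun b hb => by omega)]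
      refine if_congr ?_ rfl rfl
      show (a : ℕ) - 1 + 1 = a ∧ m ≤ (a : ℕ) - 1 ↔ _
      omega
    · rw [if_neg (by omega)]
      refine Finset.sum_eq_zero fun b _ => ?_
      rw [if_neg]
      intro h2
      omega
  have e3 : ∑ b : Fin n, (if (a : ℕ) = 0 ∧ (b : ℕ) + 1 = n then 1 else 0) = if (a : ℕ) = 0 then 1 else 0 := by
    rw [sum_ind _ (n - 1) (by omega) (fun b hb => by omega)]
    refine if_congr ?_ rfl rfl
    show (a : ℕ) = 0 ∧ n - 1 + 1 = n ↔ _
    omega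
  rw [e1, e2, e3]
  split_ifs <;> omega

theorem xt_col {m : ℕ} (hm : 0 < m) (hmn : m < n) (b : Fin n) :
    ∑ a, xt m a b = if (b : ℕ) = 0 then 0 else if (b : ℕ) = m then 2 else 1 := by
  have hb := b.2
  unfold xt
  rw [Finset.sum_add_distrib, Finset.sum_add_distrib]
  have e1 : ∑ a : Fin n, (if (a : ℕ) + 1 = b ∧ (b : ℕ) ≤ m then 1 else 0) =
      if 0 < (b : ℕ) ∧ (b : ℕ) ≤ m then 1 else 0 := by
    by_cases h1 : 0 < (b : ℕ)
    · rw [sum_ind _ ((b : ℕ) - 1) (by omega) (fun a ha => by omega)]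
      refine if_congr ?_ rfl rfl
      show (b : ℕ) - 1 + 1 = b ∧ (b : ℕ) ≤ m ↔ _
      omega
    · rw [if_neg (by omega)]
      refine Finset.sum_eq_zero fun a _ => ?_
      rw [if_neg]
      intro h2
      omega
  have e2 : ∑ a : Fin n, (if (b : ℕ) + 1 = a ∧ m ≤ (b : ℕ) then 1 else 0) =
      if (b : ℕ) + 1 < n ∧ m ≤ (b : ℕ) then 1 else 0 := by
    by_cases h1 : (b : ℕ) + 1 < n
    · rw [sum_ind _ ((b : ℕ) + 1) h1 (fun a ha => ha.1.symm)]
      refine if_congr ?_ rfl rfl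
      show (b : ℕ) + 1 = b + 1 ∧ m ≤ (b : ℕ) ↔ _
      omega
    · rw [if_neg (by omega)]
      refine Finset.sum_eq_zero fun a _ => ?_
      rw [if_neg]
      intro h2
      have := a.2
      omega
  have e3 : ∑ a : Fin n, (if (a : ℕ) = 0 ∧ (b : ℕ) + 1 = n then 1 else 0) = if (b : ℕ) + 1 = n then 1 else 0 := by
    rw [sum_ind _ 0 (by omega) (fun a ha => ha.1)]
    refine if_congr ?_ rfl rfl
    simp
  rw [e1, e2, e3]
  split_ifs <;> omega

/-- the swap closure of a relation -/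
inductive Clo (D : SimpleDrawing n) (A : Fin n → Fin n → Prop) : Fin n → Fin n → Prop
  | base {i j : Fin n} : A i j → Clo D A i j
  | swap {i j k l : Fin n} : Clo D A i j → Clo D A k l → Crs D i j k l → Clo D A i l

/-- A Hamiltonian cycle in an acyclic swap closed relation with the arcs of a tour. -/
theorem tour_drawing (hn : 3 ≤ n) (D : SimpleDrawing n) {A : Fin n → Fin n → Prop} {r : Fin n → ℕ}
    (hr : ∀ i j, A i j → r i < r j) (hsw : ∀ i j k l, A i j → A k l → Crs D i j k l → A i l)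
    (c : Equiv.Perm (Fin n)) {m : ℕ} (hm : 0 < m) (hmn : m < n) (hA : ∀ a b, TA m a b → A (c a) (c b)) :
    ∃ G : SimpleGraph (Fin n), D.Plane G ∧ (∀ i j, G.Adj i j → A i j ∨ A j i) ∧
      ∃ (a : Fin n) (p : G.Walk a a), p.IsHamiltonianCycle := by
  classical
  have hV : 3 ≤ Fintype.card (Fin n) := by rw [Fintype.card_fin]; exact hn
  obtain ⟨f, hf⟩ : ∃ f : Fin n, f = ⟨0, by omega⟩ := ⟨_, rfl⟩
  obtain ⟨l, hl⟩ : ∃ l : Fin n, l = ⟨m, hmn⟩ := ⟨_, rfl⟩
  have hf0 : (f : ℕ) = 0 := by rw [hf]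
  have hl0 : (l : ℕ) = m := by rw [hl]
  have hrow : ∀ u, ∑ v, xt m (c.symm u) (c.symm v) = if (c.symm u : ℕ) = 0 then 2 else
      if (c.symm u : ℕ) = m then 0 else 1 := by
    intro u
    rw [Equiv.sum_comp c.symm fun j => xt m (c.symm u) j]
    exact xt_row hm hmn _
  have hcol : ∀ v, ∑ u, xt m (c.symm u) (c.symm v) = if (c.symm v : ℕ) = 0 then 0 else
      if (c.symm v : ℕ) = m then 2 else 1 := by
    intro v
    rw [Equiv.sum_comp c.symm fun i => xt m i (c.symm v)]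
    exact xt_col hm hmn _
  have hxA : ∀ u v, xt m (c.symm u) (c.symm v) ≠ 0 → A u v := by
    intro u v huv
    have h1 := hA _ _ (xt_ta huv)
    rw [c.apply_symm_apply, c.apply_symm_apply] at h1
    exact h1
  have hff : ∀ u, (c.symm u : ℕ) = 0 ↔ u = c f := by
    intro u
    rw [← c.symm_apply_eq, Fin.ext_iff, hf0]
  have hll : ∀ u, (c.symm u : ℕ) = m ↔ u = c l := by
    intro u
    rw [← c.symm_apply_eq, Fin.ext_iff, hl0]
  obtain ⟨z, h1, h2, h3, h4, h5⟩ := net_drawing D hr hsw (s := c f) (t := c l)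
    (fun v hv => by
      by_contra hcon
      push Not at hcon
      have h6 : ∑ u, xt m (c.symm u) (c.symm v) = 0 := by
        refine Finset.sum_eq_zero fun u _ => ?_
        by_contra h7
        exact hcon u (hxA u v h7)
      rw [hcol, if_neg (fun h7 => hv ((hff v).1 h7))] at h6
      split_ifs at h6)
    (fun v hv => by
      by_contra hcon
      push Not at hcon
      have h6 : ∑ w, xt m (c.symm v) (c.symm w) = 0 := by
        refine Finset.sum_eq_zero fun w _ => ?_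
        by_contra h7
        exact hcon w (hxA v w h7)
      rw [hrow] at h6
      rw [if_neg (fun h7 => hv ((hll v).1 h7))] at h6
      split_ifs at h6)
    (fun u v => xt m (c.symm u) (c.symm v)) hxA
  obtain ⟨G, hG⟩ : ∃ G : Finset (Sym2 (Fin n)), G = (univ.filter fun p : Fin n × Fin n => z p.1 p.2 ≠ 0).image
    fun p => s(p.1, p.2) := ⟨_, rfl⟩
  have hGm : ∀ e, e ∈ G ↔ ∃ u v, z u v ≠ 0 ∧ s(u, v) = e := by
    intro e
    rw [hG, mem_image]
    constructor
    · rintro ⟨p, hp, he⟩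
      exact ⟨p.1, p.2, (mem_filter.1 hp).2, he⟩
    · rintro ⟨u, v, hp, he⟩
      exact ⟨(u, v), mem_filter.2 ⟨mem_univ _, hp⟩, he⟩
  have hloop : ∀ v, s(v, v) ∉ G := by
    intro v hv
    obtain ⟨a, b, hab, he⟩ := (hGm _).1 hv
    have h6 := hr a b (h2 a b hab)
    rcases Sym2.eq_iff.1 he with ⟨h7, h8⟩ | ⟨h7, h8⟩
    · rw [h7, h8] at h6
      exact lt_irrefl _ h6
    · rw [h7, h8] at h6
      exact lt_irrefl _ h6
  have hGp : Plane (crossT (table D)) G := by
    intro e he e' he' hx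
    obtain ⟨a, b, hab, rfl⟩ := (hGm e).1 he
    obtain ⟨c', d', hcd, rfl⟩ := (hGm e').1 he'
    exact h5 _ _ _ _ hab hcd hx
  have hfl : c f ≠ c l := by
    intro h6
    have h7 := c.injective h6
    rw [Fin.ext_iff, hf0, hl0] at h7
    omega
  obtain ⟨y, hy, hi⟩ := H20S.fracHam_of_nat (r := r) (z := z) hfl hV (fun i j hij => hr i j (h2 i j hij))
    (fun i => by
      rw [h3, hrow]
      simp only [hff, hll])
    (fun j => by
      rw [h4, hcol]
      simp only [hff, hll])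
    (G := G) (fun i j hij => (hGm _).2 ⟨i, j, hij, rfl⟩) hloop
  obtain ⟨a, p, hp⟩ := H97W.ham_walk hV hy hi
  refine ⟨H97W.gr G, H97W.plane_of D hGp, fun i j hij => ?_, a, p, hp⟩
  rw [SimpleGraph.fromEdgeSet_adj] at hij
  obtain ⟨u, v, huv, he⟩ := (hGm _).1 (mem_coe.1 hij.1)
  rcases Sym2.eq_iff.1 he with ⟨h7, h8⟩ | ⟨h7, h8⟩
  · left
    rw [← h7, ← h8]
    exact h2 u v huv
  · right
    rw [← h7, ← h8]
    exact h2 u v huv

/-- CLOSURE THEOREM for drawings. -/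
theorem closure_drawing (hn : 3 ≤ n) (D : SimpleDrawing n) (c : Equiv.Perm (Fin n)) {m : ℕ} (hm : 0 < m)
    (hmn : m < n) {A : Fin n → Fin n → Prop} (hA : ∀ a b, TA m a b → A (c a) (c b))
    (hac : ∀ v, ¬ Relation.TransGen (Clo D A) v v) :
    ∃ G : SimpleGraph (Fin n), D.Plane G ∧ (∀ i j, G.Adj i j → Clo D A i j ∨ Clo D A j i) ∧
      ∃ (a : Fin n) (p : G.Walk a a), p.IsHamiltonianCycle := by
  obtain ⟨r, hr⟩ := H94C.exists_rank hac
  exact tour_drawing hn D hr (fun i j k l h1 h2 h3 => Clo.swap h1 h2 h3) c hm hmn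
    (fun a b hab => Clo.base (hA a b hab))

/-- GENERALIZED TWISTED drawings have an order without separated crossings. -/
theorem ord_of_twisted (hn : 2 ≤ n) (D : SimpleDrawing n) (h : H5GT.GeneralizedTwisted D) :
    ∃ σ : Equiv.Perm (Fin n), Ord D σ := by
  obtain ⟨rk, hinj, hrk⟩ := H5GT.gt_sep hn D h
  refine ⟨Tuple.sort rk, fun i j k l hij hjk hkl => ?_⟩
  obtain ⟨σ, hσ⟩ : ∃ σ : Equiv.Perm (Fin n), σ = Tuple.sort rk := ⟨_, rfl⟩
  rw [← hσ]
  have hmono : Monotone (rk ∘ σ) := by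
    rw [hσ]
    exact Tuple.monotone_sort _
  have hlt : ∀ a b : Fin n, a < b → rk (σ a) < rk (σ b) := fun a b hab =>
    lt_of_le_of_ne (hmono hab.le) fun h1 => hab.ne (σ.injective (hinj h1))
  have h1 := hrk _ _ _ _ (hlt i j hij) (hlt j k hjk) (hlt k l hkl)
  have h2 : ¬ Crs D (σ i) (σ j) (σ k) (σ l) := by
    rw [← crs_iff, crossT_mk, h1]
    decide
  rw [Set.disjoint_iff_inter_eq_empty, ← Set.not_nonempty_iff_eq_empty]
  intro h3
  have inj := σ.injective
  exact h2 ⟨fun h => hij.ne (inj h), fun h => hkl.ne (inj h), fun h => (hij.trans hjk).ne (inj h),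
    fun h => (hij.trans (hjk.trans hkl)).ne (inj h), fun h => hjk.ne (inj h), fun h => (hjk.trans hkl).ne (inj h), h3⟩

end

end H36O
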