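import Pool.Agent.Lib.H36O.D3

/-!
# H36O, file E1: plane Hamiltonian subdrawings with exactly `2n - 3` edges from a tour and the arcs into the sink
-/

set_option autoImplicit false
set_option linter.unusedSectionVars false

open H53P SimpleDraw

namespace H36O

open Finset H98P H63F H98M

section
variable {n : ℕ}

/-- REAL FLOWS in acyclic swap closed relations. -/
theorem net_real (D : SimpleDrawing n) {A : Fin n → Fin n → Prop} {r : Fin n → ℕ}
    (hr : ∀ i j, A i j → r i < r j) (hsw : ∀ i j k l, A i j → A k l → Crs D i j k l → A i l) {s t : Fin n}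
    (hs : ∀ v, v ≠ s → ∃ w, A w v) (ht : ∀ v, v ≠ t → ∃ w, A v w) (x : Fin n → Fin n → ℝ)
    (hx0 : ∀ i j, 0 ≤ x i j) (hx : ∀ i j, x i j ≠ 0 → A i j) :
    ∃ z : Fin n → Fin n → ℝ, (∀ i j, 0 ≤ z i j) ∧ (∀ i j, z i j ≠ 0 → A i j) ∧
      (∀ i, ∑ j, z i j = ∑ j, x i j) ∧ (∀ j, ∑ i, z i j = ∑ i, x i j) ∧
      ∀ i j k l, z i j ≠ 0 → z k l ≠ 0 → ¬ crossT (table D) s(i, j) s(k, l) := by
  classical
  have hN := net_of (B := univ.filter fun p : Fin n × Fin n => A p.1 p.2) hr hsw hs ht (fun p => by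
      rw [mem_filter]
      exact ⟨fun h => h.2, fun h => ⟨mem_univ _, h⟩⟩)
  obtain ⟨z, h0, h1, h2, h3, h4⟩ := H94C.real_flow (geo_table (table D)).symm (geo_table (table D)).adj
    (H71V.good_vertex (geo_table (table D)).symm (geo_table (table D)).adj (tab_one (table D))
      (geo_table (table D)).sep hN) hN.swp x hx0
    (fun i j hij => mem_filter.2 ⟨mem_univ _, hx i j hij⟩)
  exact ⟨z, h0, fun i j hij => (mem_filter.1 (h1 i j hij)).2, h2, h3, h4⟩

/-- A plane Hamiltonian subdrawing with exactly `2n - 3` edges in an acyclic swap closed relation with the arcs of a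
tour and all arcs into its sink. -/
theorem tour_exact (hn : 3 ≤ n) (D : SimpleDrawing n) {A : Fin n → Fin n → Prop} {r : Fin n → ℕ}
    (hr : ∀ i j, A i j → r i < r j) (hsw : ∀ i j k l, A i j → A k l → Crs D i j k l → A i l)
    (c : Equiv.Perm (Fin n)) {m : ℕ} (hm : 0 < m) (hmn : m < n) (hA : ∀ a b, TA m a b → A (c a) (c b))
    (hfan : ∀ l : Fin n, (l : ℕ) = m → ∀ v, v ≠ c l → A v (c l)) :
    ∃ G : SimpleGraph (Fin n), D.Plane G ∧ (∀ i j, G.Adj i j → A i j ∨ A j i) ∧ G.edgeSet.ncard = 2 * n - 3 ∧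
      ∃ (a : Fin n) (p : G.Walk a a), p.IsHamiltonianCycle := by
  classical
  have hV : 3 ≤ Fintype.card (Fin n) := by rw [Fintype.card_fin]; exact hn
  have hn' : (3 : ℝ) ≤ n := by exact_mod_cast hn
  obtain ⟨ε, hε⟩ : ∃ ε : ℝ, ε = 1 / (2 * n) := ⟨_, rfl⟩
  have hε0 : 0 < ε := by
    rw [hε]
    positivity
  have hε1 : ε * ((Fintype.card (Fin n) : ℝ) - 1) < 1 := by
    rw [Fintype.card_fin, hε, div_mul_eq_mul_div, one_mul, div_lt_one (by linarith)]
    linarith
  obtain ⟨f, hf⟩ : ∃ f : Fin n, f = ⟨0, by omega⟩ := ⟨_, rfl⟩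
  obtain ⟨l, hl⟩ : ∃ l : Fin n, l = ⟨m, hmn⟩ := ⟨_, rfl⟩
  have hf0 : (f : ℕ) = 0 := by rw [hf]
  have hl0 : (l : ℕ) = m := by rw [hl]
  have hff : ∀ u, (c.symm u : ℕ) = 0 ↔ u = c f := by
    intro u
    rw [← c.symm_apply_eq, Fin.ext_iff, hf0]
  have hll : ∀ u, (c.symm u : ℕ) = m ↔ u = c l := by
    intro u
    rw [← c.symm_apply_eq, Fin.ext_iff, hl0]
  have hfl : c f ≠ c l := by
    intro h6
    have h7 := c.injective h6
    rw [Fin.ext_iff, hf0, hl0] at h7
    omega
  have hrow0 : ∀ u, ∑ v, xt m (c.symm u) (c.symm v) = if u = c f then 2 else if u = c l then 0 else 1 := by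
    intro u
    rw [Equiv.sum_comp c.symm fun j => xt m (c.symm u) j, xt_row hm hmn]
    simp only [hff, hll]
  have hcol0 : ∀ v, ∑ u, xt m (c.symm u) (c.symm v) = if v = c f then 0 else if v = c l then 2 else 1 := by
    intro v
    rw [Equiv.sum_comp c.symm fun i => xt m i (c.symm v), xt_col hm hmn]
    simp only [hff, hll]
  obtain ⟨x, hx⟩ : ∃ x : Fin n → Fin n → ℝ, ∀ u v, x u v = (xt m (c.symm u) (c.symm v) : ℝ) +
      (if v = c l ∧ u ≠ c l then ε else 0) := ⟨_, fun _ _ => rfl⟩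
  have hx0 : ∀ u v, 0 ≤ x u v := by
    intro u v
    rw [hx]
    positivity
  have hxA : ∀ u v, x u v ≠ 0 → A u v := by
    intro u v huv
    by_cases h1 : v = c l ∧ u ≠ c l
    · rw [h1.1]
      exact hfan l hl0 u h1.2
    · rw [hx, if_neg h1, add_zero] at huv
      have h2 : xt m (c.symm u) (c.symm v) ≠ 0 := fun h3 => huv (by rw [h3, Nat.cast_zero])
      have h3 := hA _ _ (xt_ta h2)
      rw [c.apply_symm_apply, c.apply_symm_apply] at h3
      exact h3
  have hrow : ∀ u, ∑ v, x u v = (if u = c f then 2 else if u = c l then 0 else 1) + if u ≠ c l then ε else 0 := by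
    intro u
    rw [Finset.sum_congr rfl fun v _ => hx u v, Finset.sum_add_distrib, ← Nat.cast_sum, hrow0]
    congr 1
    · push_cast
      rfl
    · by_cases h1 : u = c l
      · simp [h1]
      · simp [h1]
  have hcol : ∀ v, ∑ u, x u v = (if v = c f then 0 else if v = c l then 2 else 1) +
      if v = c l then ((n : ℝ) - 1) * ε else 0 := by
    intro v
    rw [Finset.sum_congr rfl fun u _ => hx u v, Finset.sum_add_distrib, ← Nat.cast_sum, hcol0]
    congr 1
    · push_cast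
      rfl
    · by_cases h1 : v = c l
      · rw [if_pos h1]
        have h2 : ∀ u : Fin n, (if v = c l ∧ u ≠ c l then ε else 0) = ε - if u = c l then ε else 0 := by
          intro u
          by_cases h3 : u = c l <;> simp [h1, h3]
        rw [Finset.sum_congr rfl fun u _ => h2 u, Finset.sum_sub_distrib]
        simp
        ring
      · simp [h1]
  obtain ⟨z, k0, k1, k2, k3, k4⟩ := net_real D hr hsw (s := c f) (t := c l)
    (fun v hv => by
      by_contra hcon
      push Not at hcon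
      have h6 : ∑ u, xt m (c.symm u) (c.symm v) = 0 := by
        refine Finset.sum_eq_zero fun u _ => ?_
        by_contra h7
        have h8 := hA _ _ (xt_ta h7)
        rw [c.apply_symm_apply, c.apply_symm_apply] at h8
        exact hcon u h8
      rw [hcol0, if_neg hv] at h6
      split_ifs at h6)
    (fun v hv => ⟨c l, hfan l hl0 v hv⟩) x hx0 hxA
  -- the source has the smallest rank, the sink the largest one
  have hmin : ∀ i, r (c f) ≤ r i := by
    intro i
    obtain ⟨u, -, hu⟩ := Finset.exists_min_image (univ : Finset (Fin n)) r ⟨f, mem_univ _⟩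
    have h1 : u = c f := by
      by_contra h2
      have h3 : ∑ w, xt m (c.symm w) (c.symm u) ≠ 0 := by
        rw [hcol0, if_neg h2]
        split_ifs <;> norm_num
      obtain ⟨w, -, hw⟩ := Finset.exists_ne_zero_of_sum_ne_zero h3
      have h4 := hA _ _ (xt_ta hw)
      rw [c.apply_symm_apply, c.apply_symm_apply] at h4
      have h5 := hu w (mem_univ _)
      have h6 := hr _ _ h4
      omega
    rw [← h1]
    exact hu i (mem_univ _)
  have hmax : ∀ i, r i ≤ r (c l) := by
    intro i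
    by_cases h1 : i = c l
    · rw [h1]
    · exact (hr _ _ (hfan l hl0 i h1)).le
  have hflow : H20S.Flow r (c f) (c l) ε z := by
    refine ⟨hmin, hmax, k0, fun i j hij => hr i j (k1 i j hij), ?_, fun i hi1 hi2 => ?_, fun j hj1 hj2 => ?_, ?_⟩
    · rw [k2, hrow, if_pos rfl, if_pos hfl]
    · rw [k2, hrow, if_neg hi1, if_neg hi2, if_pos hi2]
    · rw [k3, hcol, if_neg hj1, if_neg hj2, if_neg hj2, add_zero]
    · rw [k3, hcol, if_neg hfl.symm, if_pos rfl, if_pos rfl, Fintype.card_fin]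
  obtain ⟨G, hG⟩ : ∃ G : Finset (Sym2 (Fin n)), G = (univ.filter fun p : Fin n × Fin n => z p.1 p.2 ≠ 0).image
    fun p => s(p.1, p.2) := ⟨_, rfl⟩
  have hGm : ∀ e, e ∈ G ↔ ∃ u v, z u v ≠ 0 ∧ s(u, v) = e := by
    intro e
    rw [hG, mem_image]
    constructor
    · rintro ⟨p, hp, he⟩
      exact ⟨p.1, p.2, (mem_filter.1 hp).2, he⟩
    · rintro ⟨u, v, hp, he⟩
      exact ⟨(u, v), mem_filter.2 ⟨mem_univ _, hp⟩, he⟩
  have hloop : ∀ v, s(v, v) ∉ G := by
    intro v hv
    obtain ⟨a, b, hab, he⟩ := (hGm _).1 hv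
    have h6 := hr a b (k1 a b hab)
    rcases Sym2.eq_iff.1 he with ⟨h7, h8⟩ | ⟨h7, h8⟩
    · rw [h7, h8] at h6
      exact lt_irrefl _ h6
    · rw [h7, h8] at h6
      exact lt_irrefl _ h6
  have hGp : Plane (crossT (table D)) G := by
    intro e he e' he' hxx
    obtain ⟨a, b, hab, rfl⟩ := (hGm e).1 he
    obtain ⟨c', d', hcd, rfl⟩ := (hGm e').1 he'
    exact k4 _ _ _ _ hab hcd hxx
  obtain ⟨h6, y', hy', hi⟩ := H20S.flow_main hV hε0 hε1 hflow (G := G)
    (fun i j hij => (hGm _).2 ⟨i, j, hij, rfl⟩) hloop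
  rw [Fintype.card_fin] at h6
  obtain ⟨G', hG'1, hG'2, a, p, hp⟩ := H97W.ham_exact hV hy' hi (k := 2 * n - 3)
    (by rw [Fintype.card_fin]; omega) (by omega)
  refine ⟨H97W.gr G', H97W.plane_of D (fun e he e' he' => hGp e (hG'1 he) e' (hG'1 he')), fun i j hij => ?_, ?_,
    a, p, hp⟩
  · rw [SimpleGraph.fromEdgeSet_adj] at hij
    obtain ⟨u, v, huv, he⟩ := (hGm _).1 (hG'1 (mem_coe.1 hij.1))
    rcases Sym2.eq_iff.1 he with ⟨h7, h8⟩ | ⟨h7, h8⟩
    · left
      rw [← h7, ← h8]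
      exact k1 u v huv
    · right
      rw [← h7, ← h8]
      exact k1 u v huv
  · rw [H97W.ncard_edges (fun v hv => hloop v (hG'1 hv)), hG'2]

end

end H36O
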