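import Pool.Agent.Lib.H36O.D3
import Pool.Agent.SimpleDraw.CaseB

/-!
# H36O, file E2: strongly c-monotone drawings have an acyclic swap closed relation with a tour and all arcs into a sink
-/

set_option autoImplicit false
set_option linter.unusedSectionVars false

open SimpleDraw Set

namespace H36O

section
variable {n : ℕ} {D : SimpleDrawing n} {O : ℂ} (T : Lift D O)

/-- two good pairs whose curves meet have a common angle -/
theorem good_meet {a b c d : ℕ} (h1 : T.Good a b) (h2 : T.Good c d)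
    (hne : (D.curve (T.w a) (T.w b) ∩ D.curve (T.w c) (T.w d)).Nonempty) :
    ∃ (t t' : ℝ) (k : ℤ), T.ψ a ≤ t ∧ t ≤ T.ψ b ∧ T.ψ c ≤ t' ∧ t' ≤ T.ψ d ∧ t' = t + 2 * Real.pi * k := by
  obtain ⟨p, hp1, hp2⟩ := hne
  obtain ⟨g, -, -, -, hg⟩ := h1
  obtain ⟨g', -, -, -, hg'⟩ := h2
  rw [hg] at hp1
  rw [hg'] at hp2
  obtain ⟨t, ht, rfl⟩ := hp1
  obtain ⟨t', ht', he⟩ := hp2
  obtain ⟨-, k, hk⟩ := (polar_eq_iff (Real.exp_pos _) (Real.exp_pos _)).1 he
  exact ⟨t, t', k, ht.1, ht.2, ht'.1, ht'.2, hk⟩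

theorem int_zero {x : ℝ} {k : ℤ} (h : x = 2 * Real.pi * k) (h1 : -(2 * Real.pi) < x) (h2 : x < 2 * Real.pi) :
    k = 0 := by
  have h2π : (0 : ℝ) < 2 * Real.pi := Real.two_pi_pos
  have e3 : 2 * Real.pi * (-1 : ℝ) < 2 * Real.pi * (k : ℝ) := by linarith
  have e4 : 2 * Real.pi * (k : ℝ) < 2 * Real.pi * 1 := by linarith
  have e5 : (-1 : ℝ) < k := lt_of_mul_lt_mul_left e3 h2π.le
  have e6 : (k : ℝ) < 1 := lt_of_mul_lt_mul_left e4 h2π.le
  have e7 : -1 < k := by exact_mod_cast e5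
  have e8 : k < 1 := by exact_mod_cast e6
  omega

/-- crossing good pairs in a window of length less than `2 π` overlap -/
theorem overlap {lo hi a b c d : ℕ} (hlh : hi < lo + n) (h1 : T.Good a b) (h2 : T.Good c d)
    (ha : lo ≤ a) (hb : b ≤ hi) (hc : lo ≤ c) (hd : d ≤ hi)
    (hne : (D.curve (T.w a) (T.w b) ∩ D.curve (T.w c) (T.w d)).Nonempty) : a ≤ d ∧ c ≤ b := by
  obtain ⟨t, t', k, k1, k2, k3, k4, k5⟩ := good_meet T h1 h2 hne
  have e1 : T.ψ lo ≤ T.ψ a := T.ψ_mono.monotone ha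
  have e2 : T.ψ b ≤ T.ψ hi := T.ψ_mono.monotone hb
  have e3 : T.ψ lo ≤ T.ψ c := T.ψ_mono.monotone hc
  have e4 : T.ψ d ≤ T.ψ hi := T.ψ_mono.monotone hd
  have e5 : T.ψ hi < T.ψ lo + 2 * Real.pi := by
    rw [← T.ψ_per]
    exact T.ψ_mono hlh
  have hk : k = 0 := int_zero (x := t' - t) (by linarith) (by linarith) (by linarith)
  rw [hk, Int.cast_zero, mul_zero, add_zero] at k5
  rw [k5] at k3 k4
  exact ⟨T.ψ_mono.le_iff_le.1 (k1.trans k4), T.ψ_mono.le_iff_le.1 (k3.trans k2)⟩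

/-- the left window and the right window have only the ray of the sink in common -/
theorem far {j a b c d : ℕ} (h1 : T.Good b a) (h2 : T.Good c d) (ha : a ≤ j) (hc : j + 1 ≤ c)
    (hd : d ≤ n) (hne : (D.curve (T.w b) (T.w a) ∩ D.curve (T.w c) (T.w d)).Nonempty) :
    T.w b = T.w d := by
  obtain ⟨t, t', k, k1, k2, k3, k4, k5⟩ := good_meet T h1 h2 hne
  have e0 : T.ψ 0 ≤ T.ψ b := T.ψ_mono.monotone (Nat.zero_le _)
  have e1 : T.ψ a ≤ T.ψ j := T.ψ_mono.monotone ha
  have e2 : T.ψ (j + 1) ≤ T.ψ c := T.ψ_mono.monotone hc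
  have e3 : T.ψ d ≤ T.ψ n := T.ψ_mono.monotone hd
  have e4 : T.ψ n = T.ψ 0 + 2 * Real.pi := by
    have := T.ψ_per 0
    rwa [zero_add] at this
  have e5 : T.ψ j < T.ψ (j + 1) := T.ψ_mono (Nat.lt_succ_self j)
  have h2π : (0 : ℝ) < 2 * Real.pi := Real.two_pi_pos
  have hk : k - 1 = 0 := by
    refine int_zero (x := t' - t - 2 * Real.pi) ?_ (by linarith) (by linarith)
    push_cast
    linarith
  have hk1 : k = 1 := by omega
  rw [hk1, Int.cast_one, mul_one] at k5
  have hb : b = 0 := by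
    have h3 : T.ψ b ≤ T.ψ 0 := by linarith
    exact Nat.le_zero.1 (T.ψ_mono.le_iff_le.1 h3)
  have hd' : n ≤ d := by
    have h3 : T.ψ n ≤ T.ψ d := by linarith
    exact T.ψ_mono.le_iff_le.1 h3
  have hd2 : d = n := le_antisymm hd hd'
  rw [hb, hd2]
  have := T.w_per 0
  rw [zero_add] at this
  exact this.symm

/-- shifted index -/
theorem exists_perm (q : ℕ) : ∃ c : Equiv.Perm (Fin n), ∀ k : Fin n, c k = T.w (q + k) := by
  have hinj : Function.Injective fun k : Fin n => T.w (q + k) := by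
    intro k l hkl
    have := T.w_inj q (q + k) (q + l) (Nat.le_add_right _ _) (by omega) (Nat.le_add_right _ _) (by omega) hkl
    exact Fin.ext (by omega)
  exact ⟨Equiv.ofBijective _ (Finite.injective_iff_bijective.1 hinj), fun k => rfl⟩

/-- ONE WINDOW -/
theorem one_window (hn : 3 ≤ n) {q : ℕ} (hq : T.Good q (q + (n - 1))) :
    ∃ (c : Equiv.Perm (Fin n)) (m : ℕ) (A : Fin n → Fin n → Prop) (r : Fin n → ℕ), 0 < m ∧ m < n ∧
      (∀ i j, A i j → r i < r j) ∧ (∀ i j k l, A i j → A k l → Crs D i j k l → A i l) ∧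
      (∀ a b, TA m a b → A (c a) (c b)) ∧ ∀ l : Fin n, (l : ℕ) = m → ∀ v, v ≠ c l → A v (c l) := by
  obtain ⟨c, hc⟩ := exists_perm T q
  have hgood : ∀ a b, q ≤ a → a < b → b ≤ q + (n - 1) → T.Good a b := fun a b h1 h2 h3 =>
    T.good_sub (by omega) (by omega) hq h1 h2 h3
  refine ⟨c, n - 1, fun u v => c.symm u < c.symm v, fun v => (c.symm v : ℕ), by omega, by omega,
    fun i j h => h, fun i j k l h1 h2 h3 => ?_, fun a b h => ?_, fun l hl v hv => ?_⟩
  · obtain ⟨-, -, -, h4, -, -, h5⟩ := h3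
    obtain ⟨a, rfl⟩ := c.surjective i
    obtain ⟨b, rfl⟩ := c.surjective j
    obtain ⟨a', rfl⟩ := c.surjective k
    obtain ⟨b', rfl⟩ := c.surjective l
    simp only [Equiv.symm_apply_apply] at h1 h2 ⊢
    rw [Fin.lt_def] at h1 h2
    have e1 := a.2
    have e2 := b.2
    have e3 := a'.2
    have e4 := b'.2
    rw [hc a, hc b, hc a', hc b'] at h5
    have h6 := (overlap T (lo := q) (hi := q + (n - 1)) (by omega) (hgood _ _ (by omega) (by omega) (by omega))
      (hgood _ _ (by omega) (by omega) (by omega)) (by omega) (by omega) (by omega) (by omega) h5).1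
    refine lt_of_le_of_ne (Fin.le_def.2 (by omega)) fun h7 => h4 (by rw [h7])
  · have ha := a.2
    have hb := b.2
    simp only [Equiv.symm_apply_apply]
    rw [Fin.lt_def]
    unfold TA at h
    omega
  · show c.symm v < c.symm (c l)
    rw [Equiv.symm_apply_apply]
    have h1 : c.symm v ≠ l := fun h => hv (by rw [← h, Equiv.apply_symm_apply])
    have h2 := (c.symm v).2
    refine lt_of_le_of_ne (Fin.le_def.2 (by omega)) h1

/-- the index pairs of the arcs with two windows -/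
def P2 (n j k l : ℕ) : Prop := (l < k ∧ k ≤ j) ∨ (j + 1 ≤ k ∧ k < l ∧ l ≤ n) ∨ (k = j ∧ l = j + 1)

/-- the rank -/
def R2 (n j p : ℕ) : ℕ := if p = 0 then n else if p ≤ j then j - p else p - j

/-- TWO WINDOWS -/
theorem two_windows (hn : 3 ≤ n) {j : ℕ} (hj1 : 1 ≤ j) (hjn : j + 2 ≤ n) (g1 : T.Good 0 j)
    (g2 : T.Good j (j + 1)) (g3 : T.Good (j + 1) n) :
    ∃ (c : Equiv.Perm (Fin n)) (m : ℕ) (A : Fin n → Fin n → Prop) (r : Fin n → ℕ), 0 < m ∧ m < n ∧
      (∀ i j, A i j → r i < r j) ∧ (∀ i j k l, A i j → A k l → Crs D i j k l → A i l) ∧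
      (∀ a b, TA m a b → A (c a) (c b)) ∧ ∀ l : Fin n, (l : ℕ) = m → ∀ v, v ≠ c l → A v (c l) := by
  obtain ⟨c, hc⟩ := exists_perm T j
  choose idx hidx1 hidx2 using T.w_surj
  have hw0 : T.w n = T.w 0 := by
    have := T.w_per 0
    rwa [zero_add] at this
  have hidw : ∀ k, k < n → idx (T.w k) = k := fun k hk =>
    T.w_inj 0 _ _ (Nat.zero_le _) (by rw [zero_add]; exact hidx1 _) (Nat.zero_le _) (by rw [zero_add]; exact hk)
      (hidx2 _)
  have hidn : idx (T.w n) = 0 := by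
    rw [hw0]
    exact hidw 0 (by omega)
  have hL : ∀ a b, a < b → b ≤ j → T.Good a b := fun a b h1 h2 =>
    T.good_sub (by omega) (by omega) g1 (Nat.zero_le _) h1 h2
  have hR : ∀ a b, j + 1 ≤ a → a < b → b ≤ n → T.Good a b := fun a b h1 h2 h3 =>
    T.good_sub (by omega) (by omega) g3 h1 h2 h3
  obtain ⟨A, hA⟩ : ∃ A : Fin n → Fin n → Prop, ∀ u v, A u v ↔ ∃ k l, P2 n j k l ∧ u = T.w k ∧ v = T.w l :=
    ⟨_, fun _ _ => Iff.rfl⟩
  have hmk : ∀ k l, P2 n j k l → A (T.w k) (T.w l) := fun k l h => (hA _ _).2 ⟨k, l, h, rfl, rfl⟩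
  refine ⟨c, n - j, A, fun v => R2 n j (idx v), by omega, by omega, fun u v h => ?_,
    fun u v x y h1 h2 h3 => ?_, fun a b h => ?_, fun l hl v hv => ?_⟩
  · obtain ⟨k, l, hkl, rfl, rfl⟩ := (hA _ _).1 h
    show R2 n j (idx (T.w k)) < R2 n j (idx (T.w l))
    rcases hkl with ⟨h1, h2⟩ | ⟨h1, h2, h3⟩ | ⟨h1, h2⟩
    · rw [hidw k (by omega), hidw l (by omega)]
      unfold R2
      split_ifs <;> omega
    · rw [hidw k (by omega)]
      rcases h3.eq_or_lt with h4 | h4
      · rw [h4, hidn]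
        unfold R2
        split_ifs <;> omega
      · rw [hidw l h4]
        unfold R2
        split_ifs <;> omega
    · rw [hidw k (by omega), hidw l (by omega)]
      unfold R2
      split_ifs <;> omega
  · obtain ⟨a, b, hab, rfl, rfl⟩ := (hA _ _).1 h1
    obtain ⟨a', b', hab', rfl, rfl⟩ := (hA _ _).1 h2
    obtain ⟨-, -, n1, n2, n3, n4, h5⟩ := h3
    rcases hab with ⟨h6, h7⟩ | ⟨h6, h7, h8⟩ | ⟨h6, h7⟩ <;>
      rcases hab' with ⟨h6', h7'⟩ | ⟨h6', h7', h8'⟩ | ⟨h6', h7'⟩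
    · -- left, left
      rw [D.curve_symm (T.w a), D.curve_symm (T.w a')] at h5
      have h9 := (overlap T (lo := 0) (hi := j) (by omega) (hL _ _ h6 h7) (hL _ _ h6' h7') (Nat.zero_le _) h7
        (Nat.zero_le _) h7' h5).2
      refine hmk _ _ (Or.inl ⟨lt_of_le_of_ne h9 fun h => n2 (by rw [h]), h7⟩)
    · -- left, right
      rw [D.curve_symm (T.w a)] at h5
      exact absurd (far T (hL _ _ h6 h7) (hR _ _ h6' h7' h8') h7 h6' h8' h5) n4
    · -- left, gap
      exfalso
      subst h6' h7'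
      rw [D.curve_symm (T.w a)] at h5
      have h9 := (overlap T (lo := 0) (hi := a' + 1) (by omega) (hL _ _ h6 h7) g2 (Nat.zero_le _) (by omega)
        (Nat.zero_le _) le_rfl h5).2
      exact n1 (by rw [le_antisymm h7 h9])
    · -- right, left
      rw [Set.inter_comm, D.curve_symm (T.w a')] at h5
      exact absurd (far T (hL _ _ h6' h7') (hR _ _ h6 h7 h8) h7' h6 h8 h5).symm n4
    · -- right, right
      have h9 := (overlap T (lo := j + 1) (hi := n) (by omega) (hR _ _ h6 h7 h8) (hR _ _ h6' h7' h8') h6 h8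
        h6' h8' h5).1
      refine hmk _ _ (Or.inr (Or.inl ⟨h6, lt_of_le_of_ne h9 fun h => n2 (by rw [h]), h8'⟩))
    · -- right, gap
      exfalso
      subst h6' h7'
      have h9 := (overlap T (lo := a') (hi := n) (by omega) (hR _ _ h6 h7 h8) g2 (by omega) h8 le_rfl (by omega)
        h5).1
      exact n2 (by rw [le_antisymm h9 h6])
    · -- gap, left
      exfalso
      subst h6 h7
      rw [D.curve_symm (T.w a')] at h5
      have h9 := (overlap T (lo := 0) (hi := a + 1) (by omega) g2 (hL _ _ h6' h7') (Nat.zero_le _) le_rfl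
        (Nat.zero_le _) (by omega) h5).1
      exact n1 (by rw [le_antisymm h9 h7'])
    · -- gap, right
      exfalso
      subst h6 h7
      have h9 := (overlap T (lo := a) (hi := n) (by omega) g2 (hR _ _ h6' h7' h8') le_rfl (by omega) (by omega)
        h8' h5).2
      exact n3 (by rw [le_antisymm h6' h9])
    · -- gap, gap
      exact absurd (by rw [h6, h6']) n1
  · have ha := a.2
    have hb := b.2
    rw [hc a, hc b]
    rcases h with ⟨h1, h2⟩ | ⟨h1, h2⟩ | ⟨h1, h2⟩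
    · have e : j + (b : ℕ) = j + a + 1 := by omega
      rw [e]
      by_cases h3 : (a : ℕ) = 0
      · rw [h3]
        exact hmk _ _ (Or.inr (Or.inr ⟨rfl, rfl⟩))
      · exact hmk _ _ (Or.inr (Or.inl ⟨by omega, by omega, by omega⟩))
    · have e1 : j + (a : ℕ) = (j + a - n) + n := by omega
      have e2 : j + (b : ℕ) = (j + b - n) + n := by omega
      rw [e1, e2, T.w_per, T.w_per]
      exact hmk _ _ (Or.inl ⟨by omega, by omega⟩)
    · have e2 : j + (b : ℕ) = (j - 1) + n := by omega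
      rw [h1, e2, T.w_per, add_zero]
      exact hmk _ _ (Or.inl ⟨by omega, by omega⟩)
  · have e1 : c l = T.w n := by
      rw [hc l, hl]
      congr 1
      omega
    have h1 : idx v < n := hidx1 v
    have h2 : T.w (idx v) = v := hidx2 v
    have h3 : idx v ≠ 0 := by
      intro h
      apply hv
      rw [e1, hw0, ← h, h2]
    by_cases h4 : idx v ≤ j
    · rw [e1, hw0, ← h2]
      exact hmk _ _ (Or.inl ⟨by omega, by omega⟩)
    · rw [e1]
      conv_lhs => rw [← h2]
      exact hmk _ _ (Or.inr (Or.inl ⟨by omega, h1, le_rfl⟩))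

end

theorem scm_net {n : ℕ} (hn : 3 ≤ n) (D : SimpleDrawing n) (h : D.StronglyCMonotone) :
    ∃ (c : Equiv.Perm (Fin n)) (m : ℕ) (A : Fin n → Fin n → Prop) (r : Fin n → ℕ), 0 < m ∧ m < n ∧
      (∀ i j, A i j → r i < r j) ∧ (∀ i j k l, A i j → A k l → Crs D i j k l → A i l) ∧
      (∀ a b, TA m a b → A (c a) (c b)) ∧ ∀ l : Fin n, (l : ℕ) = m → ∀ v, v ≠ c l → A v (c l) := by
  obtain ⟨O, ⟨T⟩⟩ := exists_lift (by omega) h
  by_cases hlong : ∃ a, T.Good (a + 1) (a + n)
  · obtain ⟨a, ha⟩ := hlong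
    refine one_window T hn (q := a + 1) ?_
    have : a + 1 + (n - 1) = a + n := by omega
    rw [this]
    exact ha
  push Not at hlong
  have hshort : ∀ a, T.Good a (a + 1) := fun a =>
    (T.good_or (a := a) (b := a + 1) (by omega) (by omega)).resolve_right (hlong a)
  by_cases h0 : T.Good 0 (n - 1)
  · refine one_window T hn (q := 0) ?_
    rw [zero_add]
    exact h0
  obtain ⟨j, hj1, hjn, hj, hj'⟩ : ∃ j, 1 ≤ j ∧ j + 2 ≤ n ∧ T.Good 0 j ∧ ¬ T.Good 0 (j + 1) := by
    by_contra hcon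
    push Not at hcon
    have : ∀ j, 1 ≤ j → j + 1 ≤ n → T.Good 0 j := by
      intro j hj1
      induction j, hj1 using Nat.le_induction with
      | base => intro _; exact hshort 0
      | succ j hj1 ih =>
        intro hle
        exact hcon j hj1 (by omega) (ih (by omega))
    exact h0 (this (n - 1) (by omega) (by omega))
  have h3 : T.Good (j + 1) n := by
    have := (T.good_or (a := 0) (b := j + 1) (by omega) (by omega)).resolve_left hj'
    rwa [zero_add] at this
  exact two_windows T hn hj1 hjn hj (hshort j) h3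

end H36O
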