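import Mathlib

/-!
# H36O, file LP: Hamiltonian paths in connected graphs with degrees at most two
-/

set_option autoImplicit false
set_option linter.unusedSectionVars false

namespace H36O

open Finset

variable {V : Type*} [Fintype V] [DecidableEq V]

/-- a walk from a chain -/
theorem walk_of_chain (G : SimpleGraph V) : ∀ (l : List V) (a : V), (a :: l).IsChain G.Adj →
    ∃ b, ∃ w : G.Walk a b, w.support = a :: l ∧ (a :: l).getLast (List.cons_ne_nil _ _) = b := by
  intro l
  induction l with
  | nil =>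
    intro a _
    exact ⟨a, SimpleGraph.Walk.nil, rfl, rfl⟩
  | cons b l ih =>
    intro a h
    rw [List.isChain_cons_cons] at h
    obtain ⟨c, w, hw, hc⟩ := ih b h.2
    refine ⟨c, SimpleGraph.Walk.cons h.1 w, ?_, ?_⟩
    · rw [SimpleGraph.Walk.support_cons, hw]
    · rw [List.getLast_cons (List.cons_ne_nil _ _)]
      exact hc

/-- two neighbours of an inner vertex of a chain -/
theorem inner_two {G : SimpleGraph V} {l1 l2 : List V} {a x b : V}
    (h : (l1 ++ a :: x :: b :: l2).IsChain G.Adj) : G.Adj a x ∧ G.Adj x b := by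
  have h1 := (List.isChain_append.1 h).2.1
  rw [List.isChain_cons_cons, List.isChain_cons_cons] at h1
  exact ⟨h1.1, h1.2.1⟩

/-- position of an element of a list: first, last, or inner -/
theorem split_mem {l : List V} {x : V} (hx : x ∈ l) :
    (∃ m, l = x :: m) ∨ (∃ m, l = m ++ [x]) ∨ ∃ l1 l2 a b, l = l1 ++ a :: x :: b :: l2 := by
  obtain ⟨m1, m2, rfl⟩ := List.append_of_mem hx
  rcases List.eq_nil_or_concat m1 with rfl | ⟨m1', a, rfl⟩
  · exact Or.inl ⟨m2, rfl⟩
  · cases m2 with
    | nil => exact Or.inr (Or.inl ⟨_, rfl⟩)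
    | cons b m2 =>
      refine Or.inr (Or.inr ⟨m1', m2, a, b, ?_⟩)
      simp

theorem nodup_len {l : List V} (h : l.Nodup) : l.length ≤ Fintype.card V := by
  have := List.toFinset_card_of_nodup h
  rw [← this]
  exact Finset.card_le_univ _

/-- a longest chain -/
theorem longest (G : SimpleGraph V) (v0 : V) : ∃ l : List V, l ≠ [] ∧ l.Nodup ∧ l.IsChain G.Adj ∧
    ∀ m : List V, m.Nodup → m.IsChain G.Adj → m.length ≤ l.length := by
  classical
  have hP : ∃ k, ∃ l : List V, l.Nodup ∧ l.IsChain G.Adj ∧ l.length = k := ⟨1, [v0], by simp, by simp, rfl⟩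
  obtain ⟨k, hk, hmax⟩ : ∃ k, (∃ l : List V, l.Nodup ∧ l.IsChain G.Adj ∧ l.length = k) ∧
      ∀ k', (∃ l : List V, l.Nodup ∧ l.IsChain G.Adj ∧ l.length = k') → k' ≤ k := by
    refine ⟨Nat.findGreatest (fun k => ∃ l : List V, l.Nodup ∧ l.IsChain G.Adj ∧ l.length = k) (Fintype.card V),
      ?_, ?_⟩
    · obtain ⟨k, hk⟩ := hP
      have hle : k ≤ Fintype.card V := by
        obtain ⟨l, h1, _, h3⟩ := hk
        rw [← h3]
        exact nodup_len h1
      exact Nat.findGreatest_spec (P := fun k => ∃ l : List V, l.Nodup ∧ l.IsChain G.Adj ∧ l.length = k) hle hk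
    · intro k' hk'
      have hle : k' ≤ Fintype.card V := by
        obtain ⟨l, h1, _, h3⟩ := hk'
        rw [← h3]
        exact nodup_len h1
      exact Nat.le_findGreatest (P := fun k => ∃ l : List V, l.Nodup ∧ l.IsChain G.Adj ∧ l.length = k) hle hk'
  obtain ⟨l, h1, h2, h3⟩ := hk
  refine ⟨l, ?_, h1, h2, fun m hm1 hm2 => by rw [h3]; exact hmax _ ⟨m, hm1, hm2, rfl⟩⟩
  rintro rfl
  have := hmax 1 ⟨[v0], by simp, by simp, rfl⟩
  rw [← h3] at this
  simp at this

/-- A connected graph (in cut form) with all degrees at most two and degree at most one at `s /= t` has a Hamiltonian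
path from `s` to `t`. -/
theorem ham_path (G : SimpleGraph V) (hc : ∀ S : Finset V, S.Nonempty → S ≠ univ → ∃ x ∈ S, ∃ y, y ∉ S ∧ G.Adj x y)
    (hdeg : ∀ v, (G.neighborSet v).ncard ≤ 2) {s t : V} (hst : s ≠ t) (hs : (G.neighborSet s).ncard ≤ 1)
    (ht : (G.neighborSet t).ncard ≤ 1) : ∃ p : G.Walk s t, p.IsHamiltonian := by
  classical
  obtain ⟨l, hl0, hnd, hch, hmax⟩ := longest G s
  have hcov : ∀ v, v ∈ l := by
    by_contra hcon
    push Not at hcon
    obtain ⟨v, hv⟩ := hcon
    obtain ⟨x, hx, y, hy, hxy⟩ := hc l.toFinset (by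
      obtain ⟨a, ha⟩ := List.exists_mem_of_ne_nil l hl0
      exact ⟨a, List.mem_toFinset.2 ha⟩) (fun h => hv (by
        rw [← List.mem_toFinset, h]
        exact mem_univ v))
    rw [List.mem_toFinset] at hx hy
    rcases split_mem hx with ⟨m, rfl⟩ | ⟨m, rfl⟩ | ⟨l1, l2, a, b, rfl⟩
    · have h1 := hmax (y :: x :: m) (List.nodup_cons.2 ⟨hy, hnd⟩) (List.isChain_cons_cons.2 ⟨hxy.symm, hch⟩)
      simp at h1
    · have h1 := hmax ((m ++ [x]) ++ [y]) (by
        rw [List.nodup_append]
        refine ⟨hnd, by simp, ?_⟩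
        intro c hc d hd
        rw [List.mem_singleton] at hd
        rw [hd]
        rintro rfl
        exact hy hc) (by
        rw [List.isChain_append]
        refine ⟨hch, by simp, ?_⟩
        intro c hc d hd
        simp at hc hd
        rw [← hc, ← hd]
        exact hxy)
      simp at h1
    · obtain ⟨h1, h2⟩ := inner_two hch
      have h3 : ({a, b, y} : Finset V).card = 3 := by
        rw [Finset.card_eq_three]
        refine ⟨a, b, y, ?_, ?_, ?_, rfl⟩
        · rintro rfl
          have := (List.nodup_append.1 hnd).2.1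
          simp at this
        · rintro rfl
          exact hy (by simp)
        · rintro rfl
          exact hy (by simp)
      have h4 : (({a, b, y} : Finset V) : Set V) ⊆ G.neighborSet x := by
        intro z hz
        simp at hz
        rcases hz with rfl | rfl | rfl
        · exact h1.symm
        · exact h2
        · exact hxy
      have h5 := Set.ncard_le_ncard h4 (Set.toFinite _)
      rw [Set.ncard_coe_finset, h3] at h5
      have h6 := hdeg x
      omega
  have hend : ∀ v, (G.neighborSet v).ncard ≤ 1 → (∃ m, l = v :: m) ∨ (∃ m, l = m ++ [v]) := by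
    intro v hv
    rcases split_mem (hcov v) with h | h | ⟨l1, l2, a, b, rfl⟩
    · exact Or.inl h
    · exact Or.inr h
    · exfalso
      obtain ⟨h1, h2⟩ := inner_two hch
      have h3 : ({a, b} : Finset V).card = 2 := by
        rw [Finset.card_eq_two]
        refine ⟨a, b, ?_, rfl⟩
        rintro rfl
        have := (List.nodup_append.1 hnd).2.1
        simp at this
      have h4 : (({a, b} : Finset V) : Set V) ⊆ G.neighborSet v := by
        intro z hz
        simp at hz
        rcases hz with rfl | rfl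
        · exact h1.symm
        · exact h2
      have h5 := Set.ncard_le_ncard h4 (Set.toFinite _)
      rw [Set.ncard_coe_finset, h3] at h5
      omega
  -- a chain from `u` to `v` through everything gives a Hamiltonian walk
  have hfin : ∀ (m : List V) (u v : V), (∃ m1, m = u :: m1) → (∃ m2, m = m2 ++ [v]) → m.Nodup → m.IsChain G.Adj →
      (∀ x, x ∈ m) → ∃ p : G.Walk u v, p.IsHamiltonian := by
    rintro m u v ⟨m1, rfl⟩ ⟨m2, h2⟩ hm1 hm2 hm3
    obtain ⟨b, w, hw, hb⟩ := walk_of_chain G m1 u hm2
    have hbv : b = v := by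
      rw [← hb]
      have : ∀ (l : List V) (hl : l ≠ []), l = m2 ++ [v] → l.getLast hl = v := by
        rintro l hl rfl
        simp
      exact this _ _ h2
    subst hbv
    refine ⟨w, fun a => ?_⟩
    rw [hw]
    exact List.count_eq_one_of_mem hm1 (hm3 a)
  rcases hend s hs with h1 | h1 <;> rcases hend t ht with h2 | h2
  · obtain ⟨m, h1⟩ := h1
    obtain ⟨m', h2⟩ := h2
    rw [h1] at h2
    injection h2 with h3 _
    exact absurd h3 hst
  · exact hfin l s t h1 h2 hnd hch hcov
  · obtain ⟨p, hp⟩ := hfin l t s h2 h1 hnd hch hcov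
    refine ⟨p.reverse, fun a => ?_⟩
    rw [SimpleGraph.Walk.support_reverse, List.count_reverse]
    exact hp a
  · obtain ⟨m, h1⟩ := h1
    obtain ⟨m', h2⟩ := h2
    rw [h1] at h2
    have h3 := List.append_inj_right' h2 rfl
    injection h3 with h4
    exact absurd h4 hst

end H36O
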