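import Pool.Agent.Lib.H36O.AO
import Pool.Agent.Lib.H36O.LP
import Pool.Agent.Lib.H20S.R

/-!
# H36O, file HP: plane Hamiltonian paths between any two vertices, for orders without separated crossings

For `s < t` the union of increasing chains from the first vertex to `s`, from the first to the last vertex and from
`t` to the last vertex, covering every vertex once, is a Hamiltonian path from `s` to `t`; the number of arcs out of and
into every vertex is known (`PF`). The same numbers are realized by a plane set of arcs (`real_flow`, `H20S.round`), and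
they force a Hamiltonian path from `s` to `t`.
-/

set_option autoImplicit false
set_option linter.unusedSectionVars false

namespace H36O

open Finset H98P H63F H98M

section
variable {V : Type*} [Fintype V] [LinearOrder V]

/-- the flow of a path from `s` to `t` -/
structure PF (f l s t : V) (z : V → V → ℕ) : Prop where
  first : ∀ i, f ≤ i
  last : ∀ i, i ≤ l
  lt : ∀ i j, z i j ≠ 0 → i < j
  row : ∀ i, ∑ j, z i j + (if i = s then 1 else 0) = (if i = l then 0 else 1) + (if i = f then 1 else 0)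
  col : ∀ j, ∑ i, z i j + (if j = t then 1 else 0) = (if j = f then 0 else 1) + (if j = l then 1 else 0)

/-- the graph of the support -/
def gz (z : V → V → ℕ) : SimpleGraph V := SimpleGraph.fromRel fun i j => z i j ≠ 0

theorem gz_adj {z : V → V → ℕ} {a b : V} : (gz z).Adj a b ↔ a ≠ b ∧ (z a b ≠ 0 ∨ z b a ≠ 0) := by
  unfold gz
  rw [SimpleGraph.fromRel_adj]

variable {f l s t : V} {z : V → V → ℕ}

theorem PF.closed (h : PF f l s t z) {S : Finset V} (hS : ∀ x ∈ S, ∀ y, y ∉ S → ¬ (gz z).Adj x y) :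
    (∀ x ∈ S, ∀ y, y ∉ S → z x y = 0) ∧ ∀ x ∈ S, ∀ y, y ∉ S → z y x = 0 := by
  constructor
  · intro x hx y hy
    by_contra h1
    exact hS x hx y hy (gz_adj.2 ⟨(h.lt x y h1).ne, Or.inl h1⟩)
  · intro x hx y hy
    by_contra h1
    exact hS x hx y hy (gz_adj.2 ⟨(h.lt y x h1).ne', Or.inr h1⟩)

theorem PF.sum (h : PF f l s t z) {S : Finset V} (hS : ∀ x ∈ S, ∀ y, y ∉ S → ¬ (gz z).Adj x y) : (f ∈ S ↔ l ∈ S) := by
  obtain ⟨h1, h2⟩ := h.closed hS
  have e1 : ∀ i ∈ S, ∑ j, z i j = ∑ j ∈ S, z i j := by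
    intro i hi
    symm
    refine Finset.sum_subset (subset_univ S) fun j _ hj => h1 i hi j hj
  have e2 : ∀ j ∈ S, ∑ i, z i j = ∑ i ∈ S, z i j := by
    intro j hj
    symm
    refine Finset.sum_subset (subset_univ S) fun i _ hi => h2 j hj i hi
  have e3 : ∑ i ∈ S, ∑ j, z i j = ∑ j ∈ S, ∑ i, z i j := by
    rw [Finset.sum_congr rfl e1, Finset.sum_congr rfl e2, Finset.sum_comm]
  have hrow : ∑ i ∈ S, ∑ j, z i j + (if s ∈ S then 1 else 0) =
      ∑ i ∈ S, (if i = l then 0 else 1) + (if f ∈ S then 1 else 0) := by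
    rw [← Finset.sum_ite_eq' S s (fun _ => 1), ← Finset.sum_ite_eq' S f (fun _ => 1), ← Finset.sum_add_distrib,
      ← Finset.sum_add_distrib]
    exact Finset.sum_congr rfl fun i _ => h.row i
  have hcol : ∑ j ∈ S, ∑ i, z i j + (if t ∈ S then 1 else 0) =
      ∑ j ∈ S, (if j = f then 0 else 1) + (if l ∈ S then 1 else 0) := by
    rw [← Finset.sum_ite_eq' S t (fun _ => 1), ← Finset.sum_ite_eq' S l (fun _ => 1), ← Finset.sum_add_distrib,
      ← Finset.sum_add_distrib]
    exact Finset.sum_congr rfl fun i _ => h.col i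
  have hl : ∑ i ∈ S, (if i = l then 0 else 1) + (if l ∈ S then 1 else 0) = S.card := by
    rw [← Finset.sum_ite_eq' S l (fun _ => 1), ← Finset.sum_add_distrib, Finset.card_eq_sum_ones]
    refine Finset.sum_congr rfl fun i _ => ?_
    split_ifs <;> rfl
  have hf : ∑ i ∈ S, (if i = f then 0 else 1) + (if f ∈ S then 1 else 0) = S.card := by
    rw [← Finset.sum_ite_eq' S f (fun _ => 1), ← Finset.sum_add_distrib, Finset.card_eq_sum_ones]
    refine Finset.sum_congr rfl fun i _ => ?_
    split_ifs <;> rfl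
  rw [e3] at hrow
  by_cases a1 : f ∈ S <;> by_cases a2 : l ∈ S <;> by_cases a3 : s ∈ S <;> by_cases a4 : t ∈ S <;>
    simp only [a1, a2, a3, a4, if_true, if_false] at hrow hcol hl hf ⊢ <;> omega

/-- a closed nonempty set contains the first vertex -/
theorem PF.mem (h : PF f l s t z) (hst : s < t) {S : Finset V} (hne : S.Nonempty)
    (hS : ∀ x ∈ S, ∀ y, y ∉ S → ¬ (gz z).Adj x y) : f ∈ S := by
  by_contra hf
  have hl : l ∉ S := fun hl => hf ((h.sum hS).2 hl)
  obtain ⟨h1, h2⟩ := h.closed hS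
  obtain ⟨m, hm, hmin⟩ := Finset.exists_min_image S id hne
  obtain ⟨M, hM, hmax⟩ := Finset.exists_max_image S id hne
  have hmt : m = t := by
    have h3 := h.col m
    have h4 : ∑ i, z i m = 0 := by
      refine Finset.sum_eq_zero fun i _ => ?_
      by_contra h5
      have h6 := h.lt i m h5
      by_cases h7 : i ∈ S
      · exact absurd (hmin i h7) (not_le.2 h6)
      · exact h5 (h2 m hm i h7)
    have h5 : m ≠ f := fun h6 => hf (h6 ▸ hm)
    have h6 : m ≠ l := fun h6 => hl (h6 ▸ hm)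
    rw [h4, if_neg h5, if_neg h6] at h3
    by_contra h7
    rw [if_neg h7] at h3
    omega
  have hMs : M = s := by
    have h3 := h.row M
    have h4 : ∑ j, z M j = 0 := by
      refine Finset.sum_eq_zero fun j _ => ?_
      by_contra h5
      have h6 := h.lt M j h5
      by_cases h7 : j ∈ S
      · exact absurd (hmax j h7) (not_le.2 h6)
      · exact h5 (h1 M hM j h7)
    have h5 : M ≠ f := fun h6 => hf (h6 ▸ hM)
    have h6 : M ≠ l := fun h6 => hl (h6 ▸ hM)
    rw [h4, if_neg h5, if_neg h6] at h3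
    by_contra h7
    rw [if_neg h7] at h3
    omega
  have h3 := hmin M hM
  simp only [id] at h3
  rw [hmt, hMs] at h3
  exact absurd h3 (not_le.2 hst)

theorem PF.cut (h : PF f l s t z) (hst : s < t) (S : Finset V) (hne : S.Nonempty) (hS : S ≠ univ) :
    ∃ x ∈ S, ∃ y, y ∉ S ∧ (gz z).Adj x y := by
  by_contra hcon
  push Not at hcon
  have h1 := h.mem hst hne fun x hx y hy => hcon x hx y hy
  have h2 := h.mem hst (S := Sᶜ) (by
    rw [Finset.nonempty_iff_ne_empty]
    intro h3
    exact hS (compl_eq_empty_iff S |>.1 h3)) (fun x hx y hy hxy => by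
      rw [mem_compl] at hx
      rw [mem_compl, not_not] at hy
      exact hcon y hy x hx hxy.symm)
  rw [mem_compl] at h2
  exact h2 h1

theorem deg_le (v : V) : ((gz z).neighborSet v).ncard ≤ ∑ j, z v j + ∑ i, z i v := by
  classical
  have h1 : (gz z).neighborSet v ⊆
      (((univ.filter fun j => z v j ≠ 0) ∪ univ.filter fun i => z i v ≠ 0 : Finset V) : Set V) := by
    intro w hw
    rw [SimpleGraph.mem_neighborSet, gz_adj] at hw
    simp only [coe_union, coe_filter, mem_univ, true_and, Set.mem_union, Set.mem_setOf_eq]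
    exact hw.2
  refine (Set.ncard_le_ncard h1 (Set.toFinite _)).trans ?_
  rw [Set.ncard_coe_finset]
  refine (card_union_le _ _).trans (Nat.add_le_add ?_ ?_)
  · rw [card_filter]
    refine Finset.sum_le_sum fun j _ => ?_
    split_ifs with h2
    · exact Nat.one_le_iff_ne_zero.2 h2
    · exact Nat.zero_le _
  · rw [card_filter]
    refine Finset.sum_le_sum fun j _ => ?_
    split_ifs with h2
    · exact Nat.one_le_iff_ne_zero.2 h2
    · exact Nat.zero_le _

/-- A flow of this kind has a Hamiltonian path from `s` to `t` in its support. -/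
theorem PF.path (h : PF f l s t z) (hst : s < t) : ∃ p : (gz z).Walk s t, p.IsHamiltonian := by
  have hd : ∀ v, ((gz z).neighborSet v).ncard + (if v = s then 1 else 0) + (if v = t then 1 else 0) ≤ 2 := by
    intro v
    have h1 := deg_le (z := z) v
    have h2 := h.row v
    have h3 := h.col v
    split_ifs at h2 h3 ⊢ <;> omega
  refine ham_path _ (h.cut hst) (fun v => ?_) hst.ne ?_ ?_
  · have h1 := hd v
    omega
  · have h1 := hd s
    rw [if_pos rfl] at h1
    omega
  · have h1 := hd t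
    rw [if_pos rfl] at h1
    omega

end

/-- the nonplane flow -/
def x0 {n : ℕ} (s t : Fin n) (i j : Fin n) : ℕ :=
  (if (j : ℕ) = i + 1 ∧ i ≠ s ∧ j ≠ t then 1 else 0) +
    if (s : ℕ) + 1 = t then (if (i : ℕ) = 0 ∧ (j : ℕ) + 1 = n then 1 else 0)
    else (if (i : ℕ) = 0 ∧ (j : ℕ) = s + 1 then 1 else 0) + (if (i : ℕ) + 1 = t ∧ (j : ℕ) + 1 = n then 1 else 0)

/-- indicator sums -/
theorem sum_ind {n : ℕ} (P : Fin n → Prop) [DecidablePred P] (c : ℕ) (hc : c < n)
    (h : ∀ j : Fin n, P j → (j : ℕ) = c) :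
    ∑ j : Fin n, (if P j then 1 else 0) = if P ⟨c, hc⟩ then 1 else 0 := by
  rw [Finset.sum_eq_single (⟨c, hc⟩ : Fin n)]
  · intro b _ hb
    rw [if_neg]
    intro h1
    exact hb (Fin.ext (h b h1))
  · intro h1
    exact absurd (mem_univ _) h1

theorem x0_pf {n : ℕ} {s t : Fin n} (hst : s < t) :
    PF (⟨0, by have := s.2; omega⟩ : Fin n) (⟨n - 1, by have := s.2; omega⟩ : Fin n) s t (x0 s t) := by
  have hs := s.2
  have ht := t.2
  have hst' : (s : ℕ) < t := hst
  refine ⟨fun i => Fin.mk_le_of_le_val (Nat.zero_le _), fun i => ?_, ?_, ?_, ?_⟩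
  · rw [Fin.le_def]
    have := i.2
    show (i : ℕ) ≤ n - 1
    omega
  · intro i j h
    rw [Fin.lt_def]
    unfold x0 at h
    have hi := i.2
    have hj := j.2
    by_contra hcon
    apply h
    split_ifs <;> omega
  · intro i
    have hi := i.2
    unfold x0
    rw [Finset.sum_add_distrib]
    have e1 : ∑ j : Fin n, (if (j : ℕ) = i + 1 ∧ i ≠ s ∧ j ≠ t then 1 else 0) =
        if (i : ℕ) + 1 < n ∧ i ≠ s ∧ (i : ℕ) + 1 ≠ t then 1 else 0 := by
      by_cases h1 : (i : ℕ) + 1 < n
      · rw [sum_ind _ ((i : ℕ) + 1) h1 (fun j hj => hj.1)]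
        refine if_congr ?_ rfl rfl
        simp [Fin.ext_iff, h1]
      · rw [if_neg (fun h2 => h1 h2.1)]
        refine Finset.sum_eq_zero fun j _ => ?_
        rw [if_neg]
        intro h2
        have := j.2
        omega
    rw [e1]
    by_cases h2 : (s : ℕ) + 1 = t
    · simp only [h2, if_true]
      have e2 : ∑ j : Fin n, (if (i : ℕ) = 0 ∧ (j : ℕ) + 1 = n then 1 else 0) = if (i : ℕ) = 0 then 1 else 0 := by
        rw [sum_ind _ (n - 1) (by omega) (fun j hj => by omega)]
        refine if_congr ?_ rfl rfl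
        show (i : ℕ) = 0 ∧ (n - 1) + 1 = n ↔ _
        omega
      rw [e2]
      simp only [Fin.ext_iff, ne_eq]
      split_ifs <;> omega
    · simp only [h2, if_false]
      rw [Finset.sum_add_distrib]
      have e2 : ∑ j : Fin n, (if (i : ℕ) = 0 ∧ (j : ℕ) = s + 1 then 1 else 0) = if (i : ℕ) = 0 then 1 else 0 := by
        rw [sum_ind _ ((s : ℕ) + 1) (by omega) (fun j hj => hj.2)]
        refine if_congr ?_ rfl rfl
        show (i : ℕ) = 0 ∧ (s : ℕ) + 1 = s + 1 ↔ _
        omega
      have e3 : ∑ j : Fin n, (if (i : ℕ) + 1 = t ∧ (j : ℕ) + 1 = n then 1 else 0) =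
          if (i : ℕ) + 1 = t then 1 else 0 := by
        rw [sum_ind _ (n - 1) (by omega) (fun j hj => by omega)]
        refine if_congr ?_ rfl rfl
        show (i : ℕ) + 1 = t ∧ (n - 1) + 1 = n ↔ _
        omega
      rw [e2, e3]
      simp only [Fin.ext_iff, ne_eq]
      split_ifs <;> omega
  · intro j
    have hj := j.2
    unfold x0
    rw [Finset.sum_add_distrib]
    have e1 : ∑ i : Fin n, (if (j : ℕ) = i + 1 ∧ i ≠ s ∧ j ≠ t then 1 else 0) =
        if 0 < (j : ℕ) ∧ (j : ℕ) ≠ s + 1 ∧ j ≠ t then 1 else 0 := by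
      by_cases h1 : 0 < (j : ℕ)
      · rw [sum_ind _ ((j : ℕ) - 1) (by omega) (fun i hi => by omega)]
        refine if_congr ?_ rfl rfl
        simp only [Fin.ext_iff, ne_eq]
        omega
      · rw [if_neg (fun h2 => h1 h2.1)]
        refine Finset.sum_eq_zero fun i _ => ?_
        rw [if_neg]
        intro h2
        omega
    rw [e1]
    by_cases h2 : (s : ℕ) + 1 = t
    · simp only [h2, if_true]
      have e2 : ∑ i : Fin n, (if (i : ℕ) = 0 ∧ (j : ℕ) + 1 = n then 1 else 0) = if (j : ℕ) + 1 = n then 1 else 0 := by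
        rw [sum_ind _ 0 (by omega) (fun i hi => hi.1)]
        refine if_congr ?_ rfl rfl
        simp
      rw [e2]
      simp only [Fin.ext_iff, ne_eq]
      split_ifs <;> omega
    · simp only [h2, if_false]
      rw [Finset.sum_add_distrib]
      have e2 : ∑ i : Fin n, (if (i : ℕ) = 0 ∧ (j : ℕ) = s + 1 then 1 else 0) = if (j : ℕ) = s + 1 then 1 else 0 := by
        rw [sum_ind _ 0 (by omega) (fun i hi => hi.1)]
        refine if_congr ?_ rfl rfl
        simp
      have e3 : ∑ i : Fin n, (if (i : ℕ) + 1 = t ∧ (j : ℕ) + 1 = n then 1 else 0) =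
          if (j : ℕ) + 1 = n then 1 else 0 := by
        rw [sum_ind _ ((t : ℕ) - 1) (by omega) (fun i hi => by omega)]
        refine if_congr ?_ rfl rfl
        show ((t : ℕ) - 1) + 1 = t ∧ (j : ℕ) + 1 = n ↔ _
        omega
      rw [e2, e3]
      simp only [Fin.ext_iff, ne_eq]
      split_ifs <;> omega

/-- NATURAL FLOWS: every multigraph can be made plane without changing the numbers of upper and lower neighbours. -/
theorem nat_flow {V : Type*} [Fintype V] [LinearOrder V] {cross : Sym2 V → Sym2 V → Prop} (h : OC cross)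
    (x : V → V → ℕ) (hx : ∀ i j, x i j ≠ 0 → i < j) :
    ∃ y : V → V → ℕ, (∀ i j, y i j ≠ 0 → i < j) ∧ (∀ i, ∑ j, y i j = ∑ j, x i j) ∧
      (∀ j, ∑ i, y i j = ∑ i, x i j) ∧ ∀ i j k l, y i j ≠ 0 → y k l ≠ 0 → ¬ cross s(i, j) s(k, l) := by
  obtain ⟨y, h1, h2, h3, h4, h5⟩ := real_flow h (fun i j => (x i j : ℝ)) (fun i j => Nat.cast_nonneg _)
    (fun i j hij => hx i j (by exact_mod_cast hij))
  obtain ⟨w, hw, hr, hc⟩ := H20S.round x y h1 h3 h4
  exact ⟨w, fun i j hij => h2 i j (hw i j hij), hr, hc,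
    fun i j k l hij hkl => h5 i j k l (hw i j hij) (hw k l hkl)⟩

/-- PLANE HAMILTONIAN PATHS between any two vertices. -/
theorem paths {n : ℕ} {cross : Sym2 (Fin n) → Sym2 (Fin n) → Prop} (h : OC cross) {s t : Fin n} (hst : s ≠ t) :
    ∃ G : SimpleGraph (Fin n), (∀ a b c d, G.Adj a b → G.Adj c d → ¬ cross s(a, b) s(c, d)) ∧
      ∃ p : G.Walk s t, p.IsHamiltonian := by
  have key : ∀ s t : Fin n, s < t → ∃ G : SimpleGraph (Fin n),
      (∀ a b c d, G.Adj a b → G.Adj c d → ¬ cross s(a, b) s(c, d)) ∧ ∃ p : G.Walk s t, p.IsHamiltonian := by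
    intro s t hst
    have hx := x0_pf hst
    obtain ⟨y, h1, h2, h3, h4⟩ := nat_flow h (x0 s t) hx.lt
    have hy : PF (⟨0, by have := s.2; omega⟩ : Fin n) (⟨n - 1, by have := s.2; omega⟩ : Fin n) s t y :=
      ⟨hx.first, hx.last, h1, fun i => by rw [h2]; exact hx.row i, fun j => by rw [h3]; exact hx.col j⟩
    refine ⟨gz y, ?_, hy.path hst⟩
    intro a b c d hab hcd
    rw [gz_adj] at hab hcd
    rcases hab.2 with h5 | h5 <;> rcases hcd.2 with h6 | h6
    · exact h4 _ _ _ _ h5 h6
    · rw [Sym2.eq_swap (a := c)]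
      exact h4 _ _ _ _ h5 h6
    · rw [Sym2.eq_swap (a := a)]
      exact h4 _ _ _ _ h5 h6
    · rw [Sym2.eq_swap (a := a), Sym2.eq_swap (a := c)]
      exact h4 _ _ _ _ h5 h6
  rcases lt_or_gt_of_ne hst with h1 | h1
  · exact key s t h1
  · obtain ⟨G, hG, p, hp⟩ := key t s h1
    refine ⟨G, hG, p.reverse, fun a => ?_⟩
    rw [SimpleGraph.Walk.support_reverse, List.count_reverse]
    exact hp a

end H36O
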