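import Pool.Agent.Lib.H63F.F6
import Pool.Agent.Lib.H98P.AC

/-!
# H36O, file TR: transport by the acyclic minimax theorem

`Ga` is a set of arcs. If for all potentials `al`, `be` the sets of `K` which consist of arcs of `Ga` of maximal
`al i + be j` form an acyclic complex, every nonnegative matrix with support in `Ga` can be replaced by one
with the same row and column sums and with support in a set of `K`.
-/

set_option autoImplicit false
set_option linter.unusedSectionVars false

namespace H36O

open Finset H98P H63F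

variable {V : Type*} [Fintype V] [DecidableEq V]

/-- The full simplex is acyclic. -/
theorem ac_full {C : Type*} [Fintype C] [DecidableEq C] {A : Finset C} (hA : A.Nonempty) :
    AC fun T : Finset C => T ⊆ A := by
  intro z hz hb
  obtain ⟨a, ha⟩ := hA
  obtain ⟨d, h1, h2⟩ := H98P.acyclic (cross := fun _ _ : C => False) (fun _ _ h => h) (L := A) (S := A)
    (Finset.Subset.refl A) (fun _ _ _ _ h => h) (fun F hF _ => ⟨a, ha, fun f _ h => h⟩) (c := z)
    (fun σ hσ => ⟨hz σ hσ, fun _ _ _ _ h => h⟩) hb
  exact ⟨d, fun s hs => (h1 s hs).1, h2⟩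

/-- the tests: rows and columns, with both signs -/
abbrev Cs (V : Type*) := (V ⊕ V) × Bool

/-- sign -/
def sg (b : Bool) : ℝ := if b then 1 else -1

/-- incidence of an arc and a row or column -/
def inc (e : V × V) : V ⊕ V → ℝ
  | .inl i => if i = e.1 then 1 else 0
  | .inr j => if j = e.2 then 1 else 0

open Classical in
/-- payoff -/
noncomputable def pp (Ga : Finset (V × V)) (e : V × V) (c : Cs V) : ℝ :=
  if e ∈ Ga then sg c.2 * inc e c.1 else -2

theorem sum_cs (g : Cs V → ℝ) : ∑ c, g c = ∑ s, (g (s, true) + g (s, false)) := by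
  rw [Fintype.sum_prod_type]
  refine Finset.sum_congr rfl fun s _ => ?_
  rw [Fintype.sum_bool]

theorem mm_in {Ga : Finset (V × V)} {μ : Cs V → ℝ} {e : V × V} (he : e ∈ Ga) :
    mm (pp Ga) μ e = (μ (.inl e.1, true) - μ (.inl e.1, false)) + (μ (.inr e.2, true) - μ (.inr e.2, false)) := by
  unfold mm
  rw [sum_cs]
  have h1 : ∀ s : V ⊕ V, μ (s, true) * pp Ga e (s, true) + μ (s, false) * pp Ga e (s, false) =
      (μ (s, true) - μ (s, false)) * inc e s := by
    intro s
    unfold pp
    rw [if_pos he, if_pos he]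
    simp only [sg, if_true, Bool.false_eq_true, if_false]
    ring
  rw [Finset.sum_congr rfl fun s _ => h1 s, Fintype.sum_sum_type]
  simp [inc]

theorem mm_out {Ga : Finset (V × V)} {μ : Cs V → ℝ} (hμ : ∑ c, μ c = 1) {e : V × V} (he : e ∉ Ga) :
    mm (pp Ga) μ e = -2 := by
  unfold mm
  have h1 : ∀ c, μ c * pp Ga e c = μ c * (-2) := by
    intro c
    unfold pp
    rw [if_neg he]
  rw [Finset.sum_congr rfl fun c _ => h1 c, ← Finset.sum_mul, hμ, one_mul]

theorem mm_ge {Ga : Finset (V × V)} {μ : Cs V → ℝ} (h0 : ∀ c, 0 ≤ μ c) (hμ : ∑ c, μ c = 1) {e : V × V}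
    (he : e ∈ Ga) : -1 ≤ mm (pp Ga) μ e := by
  rw [mm_in he]
  have h1 : μ (.inl e.1, false) + μ (.inr e.2, false) ≤ 1 := by
    rw [← hμ]
    have h2 : ({(Sum.inl e.1, false), (Sum.inr e.2, false)} : Finset (Cs V)) ⊆ univ := subset_univ _
    have h3 := Finset.sum_le_sum_of_subset_of_nonneg (f := μ) h2 fun c _ _ => h0 c
    rwa [Finset.sum_pair (by simp)] at h3
  have h4 := h0 (.inl e.1, true)
  have h5 := h0 (.inr e.2, true)
  linarith

theorem transport {Ga : Finset (V × V)} {K : Finset (V × V) → Prop} (hdown : Dn K) (h0 : K ∅)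
    (hac : ∀ al be : V → ℝ, AC fun G => K G ∧ ∀ p ∈ G, p ∈ Ga ∧ ∀ q ∈ Ga, al q.1 + be q.2 ≤ al p.1 + be p.2)
    (x : V → V → ℝ) (hx0 : ∀ i j, 0 ≤ x i j) (hx : ∀ i j, x i j ≠ 0 → (i, j) ∈ Ga) :
    ∃ y : V → V → ℝ, ∃ G : Finset (V × V), K G ∧ (∀ i j, 0 ≤ y i j) ∧
      (∀ i j, y i j ≠ 0 → (i, j) ∈ G ∧ (i, j) ∈ Ga) ∧
      (∀ i, ∑ j, y i j = ∑ j, x i j) ∧ (∀ j, ∑ i, y i j = ∑ i, x i j) := by
  classical
  obtain ⟨N, hN⟩ : ∃ N : ℝ, N = ∑ i, ∑ j, x i j := ⟨_, rfl⟩
  have hN0 : 0 ≤ N := by
    rw [hN]
    exact Finset.sum_nonneg fun i _ => Finset.sum_nonneg fun j _ => hx0 i j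
  rcases hN0.eq_or_lt with hN1 | hN1
  · have hz : ∀ i j, x i j = 0 := by
      intro i j
      have h1 : ∑ i, ∑ j, x i j = 0 := by rw [← hN, ← hN1]
      rw [Finset.sum_eq_zero_iff_of_nonneg (fun i _ => Finset.sum_nonneg fun j _ => hx0 i j)] at h1
      have h2 := h1 i (mem_univ i)
      rw [Finset.sum_eq_zero_iff_of_nonneg (fun j _ => hx0 i j)] at h2
      exact h2 j (mem_univ j)
    exact ⟨x, ∅, h0, hx0, fun i j h => absurd (hz i j) h, fun _ => rfl, fun _ => rfl⟩
  · have hGa : Ga.Nonempty := by
      by_contra hcon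
      rw [Finset.not_nonempty_iff_eq_empty] at hcon
      have h1 : N = 0 := by
        rw [hN]
        refine Finset.sum_eq_zero fun i _ => Finset.sum_eq_zero fun j _ => ?_
        by_contra h2
        have h3 := hx i j h2
        rw [hcon] at h3
        exact absurd h3 (notMem_empty _)
      rw [h1] at hN1
      exact lt_irrefl _ hN1
    obtain ⟨f0, hf0⟩ := hGa
    have : Nonempty (V × V) := ⟨f0⟩
    -- the targets
    obtain ⟨tg, htg⟩ : ∃ tg : V ⊕ V → ℝ, tg = Sum.elim (fun i => ∑ j, x i j) (fun j => ∑ i, x i j) := ⟨_, rfl⟩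
    obtain ⟨q, hq⟩ : ∃ q : Cs V → ℝ, q = fun c => -(sg c.2 * (tg c.1 / N)) := ⟨_, rfl⟩
    have key := minimax (pp Ga) q K (fun _ => True) hdown (fun _ _ _ _ => trivial) h0 trivial ?_ ?_
    · obtain ⟨G, hG, hKG, ξ, hξ, T, -, hT, μ, hμ, hmax⟩ := key
      obtain ⟨hξ0, hξs, hξ1⟩ := hξ
      obtain ⟨hμ0, hμs, hμ1⟩ := hμ
      have hGGa : ∀ e ∈ G, e ∈ Ga := by
        intro e he
        by_contra h1
        have h2 := hmax e he f0
        rw [mm_out hμ1 h1] at h2
        have h3 := mm_ge hμ0 hμ1 hf0
        linarith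
      have hsupp : ∀ e, ξ e ≠ 0 → e ∈ G := by
        intro e he
        by_contra h1
        exact he (hξs e h1)
      -- payoff of a vector with support in `Ga`
      have hpay : ∀ (η : V × V → ℝ), (∀ e, η e ≠ 0 → e ∈ Ga) → ∀ c : Cs V,
          pay (pp Ga) q η c = sg c.2 * (∑ e, η e * inc e c.1 - tg c.1 / N) := by
        intro η hη c
        unfold pay
        rw [hq]
        have h1 : ∀ e, η e * pp Ga e c = sg c.2 * (η e * inc e c.1) := by
          intro e
          by_cases h2 : η e = 0
          · rw [h2]; ring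
          · unfold pp
            rw [if_pos (hη e h2)]
            ring
        rw [Finset.sum_congr rfl fun e _ => h1 e, ← Finset.mul_sum]
        ring
      have hinl : ∀ (η : V × V → ℝ) (i : V), ∑ e, η e * inc e (.inl i) = ∑ j, η (i, j) := by
        intro η i
        rw [Fintype.sum_prod_type]
        rw [Finset.sum_eq_single i]
        · exact Finset.sum_congr rfl fun j _ => by simp [inc]
        · intro b _ hb
          exact Finset.sum_eq_zero fun j _ => by simp [inc, Ne.symm hb]
        · intro h
          exact absurd (mem_univ i) h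
      have hinr : ∀ (η : V × V → ℝ) (j : V), ∑ e, η e * inc e (.inr j) = ∑ i, η (i, j) := by
        intro η j
        rw [Fintype.sum_prod_type]
        refine Finset.sum_congr rfl fun i _ => ?_
        rw [Finset.sum_eq_single j]
        · simp [inc]
        · intro b _ hb
          simp [inc, Ne.symm hb]
        · intro h
          exact absurd (mem_univ j) h
      -- the comparison vector
      obtain ⟨η, hη⟩ : ∃ η : V × V → ℝ, η = fun e => x e.1 e.2 / N := ⟨_, rfl⟩
      have hηs : ∀ e, η e ≠ 0 → e ∈ Ga := by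
        intro e he
        refine hx e.1 e.2 fun h => he ?_
        rw [hη]
        simp only [h, zero_div]
      have hη0 : ∀ e, 0 ≤ η e := by
        intro e
        rw [hη]
        exact div_nonneg (hx0 _ _) hN1.le
      have hη1 : ∑ e, η e = 1 := by
        rw [hη]
        simp only
        rw [← Finset.sum_div, Fintype.sum_prod_type]
        simp only
        rw [← hN, div_self hN1.ne']
      have hηpay : ∀ c, pay (pp Ga) q η c = 0 := by
        intro c
        rw [hpay η hηs c]
        have h1 : ∑ e, η e * inc e c.1 = tg c.1 / N := by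
          rcases c with ⟨i | j, b⟩
          · rw [hinl, htg, hη]
            simp only [Sum.elim_inl]
            rw [Finset.sum_div]
          · rw [hinr, htg, hη]
            simp only [Sum.elim_inr]
            rw [Finset.sum_div]
        rw [h1, sub_self, mul_zero]
      -- exchange of the sums
      have hex : ∀ (ζ : V × V → ℝ), ∑ c, μ c * pay (pp Ga) q ζ c = ∑ e, ζ e * mm (pp Ga) μ e + ∑ c, μ c * q c := by
        intro ζ
        unfold pay mm
        have h1 : ∀ c, μ c * (∑ e, ζ e * pp Ga e c + q c) = ∑ e, ζ e * (μ c * pp Ga e c) + μ c * q c := by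
          intro c
          rw [mul_add, Finset.mul_sum]
          congr 1
          exact Finset.sum_congr rfl fun e _ => by ring
        rw [Finset.sum_congr rfl fun c _ => h1 c, Finset.sum_add_distrib, Finset.sum_comm]
        congr 1
        exact Finset.sum_congr rfl fun e _ => by rw [Finset.mul_sum]
      obtain ⟨g0, hg0⟩ := hG
      have hξmm : ∑ e, ξ e * mm (pp Ga) μ e = mm (pp Ga) μ g0 := by
        have h1 : ∀ e, ξ e * mm (pp Ga) μ e = ξ e * mm (pp Ga) μ g0 := by
          intro e
          by_cases h2 : ξ e = 0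
          · rw [h2, zero_mul, zero_mul]
          · have h3 := hsupp e h2
            rw [le_antisymm (hmax g0 hg0 e) (hmax e h3 g0)]
        rw [Finset.sum_congr rfl fun e _ => h1 e, ← Finset.sum_mul, hξ1, one_mul]
      have hηmm : ∑ e, η e * mm (pp Ga) μ e ≤ mm (pp Ga) μ g0 := by
        have h1 : ∀ e, η e * mm (pp Ga) μ e ≤ η e * mm (pp Ga) μ g0 := fun e =>
          mul_le_mul_of_nonneg_left (hmax g0 hg0 e) (hη0 e)
        calc ∑ e, η e * mm (pp Ga) μ e ≤ ∑ e, η e * mm (pp Ga) μ g0 := Finset.sum_le_sum fun e _ => h1 e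
          _ = mm (pp Ga) μ g0 := by rw [← Finset.sum_mul, hη1, one_mul]
      have hge : 0 ≤ ∑ c, μ c * pay (pp Ga) q ξ c := by
        have h1 := hex ξ
        have h2 := hex η
        rw [Finset.sum_eq_zero (fun c _ => by rw [hηpay c, mul_zero])] at h2
        rw [h1, hξmm]
        linarith
      have hpos : ∀ c, 0 ≤ pay (pp Ga) q ξ c := by
        intro c
        have h1 : ∑ c', μ c' * pay (pp Ga) q ξ c' ≤ ∑ c', μ c' * pay (pp Ga) q ξ c := by
          refine Finset.sum_le_sum fun c' _ => ?_
          by_cases h2 : c' ∈ T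
          · exact mul_le_mul_of_nonneg_left (hT c' h2 c) (hμ0 c')
          · rw [hμs c' h2, zero_mul, zero_mul]
        rw [← Finset.sum_mul, hμ1, one_mul] at h1
        exact hge.trans h1
      have heq : ∀ s : V ⊕ V, ∑ e, ξ e * inc e s = tg s / N := by
        intro s
        have h1 := hpos (s, true)
        have h2 := hpos (s, false)
        rw [hpay ξ (fun e he => hGGa e (hsupp e he))] at h1 h2
        simp only [sg, if_true, Bool.false_eq_true, if_false] at h1 h2
        linarith
      refine ⟨fun i j => N * ξ (i, j), G, hKG, fun i j => mul_nonneg hN1.le (hξ0 _), ?_, ?_, ?_⟩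
      · intro i j h
        have h1 : ξ (i, j) ≠ 0 := fun h2 => h (by
          show N * ξ (i, j) = 0
          rw [h2, mul_zero])
        exact ⟨hsupp _ h1, hGGa _ (hsupp _ h1)⟩
      · intro i
        have h1 := heq (.inl i)
        rw [hinl, htg, Sum.elim_inl] at h1
        rw [← Finset.mul_sum, h1, mul_div_cancel₀ _ hN1.ne']
      · intro j
        have h1 := heq (.inr j)
        rw [hinr, htg, Sum.elim_inr] at h1
        rw [← Finset.mul_sum, h1, mul_div_cancel₀ _ hN1.ne']
    · intro ξ hξ
      have h1 : (fun T : Finset (Cs V) => True ∧ Amin (pp Ga) q ξ T) =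
          fun T => T ⊆ univ.filter fun c => ∀ c', pay (pp Ga) q ξ c ≤ pay (pp Ga) q ξ c' := by
        funext T
        apply propext
        constructor
        · rintro ⟨-, h⟩ c hc
          exact mem_filter.2 ⟨mem_univ _, h c hc⟩
        · intro h
          exact ⟨trivial, fun c hc => (mem_filter.1 (h hc)).2⟩
      rw [h1]
      refine ac_full ?_
      obtain ⟨c, -, hc⟩ := Finset.exists_min_image (univ : Finset (Cs V)) (pay (pp Ga) q ξ)
        ⟨(.inl f0.1, true), mem_univ _⟩
      exact ⟨c, mem_filter.2 ⟨mem_univ _, fun c' => hc c' (mem_univ _)⟩⟩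
    · intro T _ μ hμ
      obtain ⟨hμ0, hμs, hμ1⟩ := hμ
      have h1 : (fun G : Finset (V × V) => K G ∧ Amax (pp Ga) μ G) =
          fun G => K G ∧ ∀ p ∈ G, p ∈ Ga ∧ ∀ q ∈ Ga,
            (fun i => μ (.inl i, true) - μ (.inl i, false)) q.1 + (fun j => μ (.inr j, true) - μ (.inr j, false)) q.2 ≤
            (fun i => μ (.inl i, true) - μ (.inl i, false)) p.1 +
              (fun j => μ (.inr j, true) - μ (.inr j, false)) p.2 := by
        funext G
        apply propext
        refine and_congr_right fun _ => ?_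
        constructor
        · intro h p hp
          have hpGa : p ∈ Ga := by
            by_contra h2
            have h3 := h p hp f0
            rw [mm_out hμ1 h2] at h3
            have h4 := mm_ge hμ0 hμ1 hf0
            linarith
          refine ⟨hpGa, fun q hq => ?_⟩
          have h3 := h p hp q
          rw [mm_in hpGa, mm_in hq] at h3
          exact h3
        · intro h p hp f
          by_cases hf : f ∈ Ga
          · rw [mm_in hf, mm_in (h p hp).1]
            exact (h p hp).2 f hf
          · rw [mm_out hμ1 hf]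
            have h4 := mm_ge hμ0 hμ1 (h p hp).1
            linarith
      rw [h1]
      exact hac (fun i => μ (.inl i, true) - μ (.inl i, false)) (fun j => μ (.inr j, true) - μ (.inr j, false))

end H36O
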